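import Pool.Agent.Helper35.CV.K1c

set_option autoImplicit false

namespace Pool.Agent.Helper36.CV

open Filter Topology Metric

noncomputable section

lemma k1_inv (l : ℂ) (n : ℕ) (E : ℂ) : XX l n E ^ 2 + XX l (n + 1) E ^ 2 + XX l (n + 2) E ^ 2 -
    2 * XX l n E * XX l (n + 1) E * XX l (n + 2) E - 1 = l ^ 2 / 4 := by
  induction n with
  | zero =>
    simp only [XX]
    ring
  | succ n ih =>
    have h1 : XX l (n + 3) E = 2 * XX l (n + 2) E * XX l (n + 1) E - XX l n E := by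
      simp only [XX]
    rw [show n + 1 + 1 = n + 2 by ring, show n + 1 + 2 = n + 3 by ring, h1]
    linear_combination ih

lemma k1_XX_diff : ∀ n : ℕ, Differentiable ℂ (fun p : ℂ × ℂ => XX p.1 n p.2) := by
  intro n
  induction n using Nat.strong_induction_on with
  | _ n ih =>
    match n with
    | 0 =>
      simp only [XX]
      exact differentiable_const _
    | 1 =>
      simp only [XX]
      fun_prop
    | 2 =>
      simp only [XX]
      fun_prop
    | (m + 3) =>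
      have h0 := ih m (by omega)
      have h1 := ih (m + 1) (by omega)
      have h2 := ih (m + 2) (by omega)
      simp only [XX]
      exact (((differentiable_const (2 : ℂ)).mul h2).mul h1).sub h0

lemma k1_XX_ofReal (l x : ℝ) : ∀ n : ℕ, XX (l : ℂ) n (x : ℂ) = ((X l n x : ℝ) : ℂ) := by
  intro n
  induction n using Nat.strong_induction_on with
  | _ n ih =>
    match n with
    | 0 => simp [XX, X]
    | 1 => simp [XX, X]
    | 2 => simp [XX, X]
    | (m + 3) =>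
      have h0 := ih m (by omega)
      have h1 := ih (m + 1) (by omega)
      have h2 := ih (m + 2) (by omega)
      simp only [XX, X]
      rw [h0, h1, h2]
      push_cast
      ring

lemma k1_real {w : ℂ} (h : w.im = 0) : ∃ x : ℝ, (x : ℂ) = w := by
  refine ⟨w.re, ?_⟩
  apply Complex.ext
  · simp
  · simp [h]

lemma k1_Om_open (L0 : ℝ) : IsOpen (Om2 L0) := by
  have h1 : Om2 L0 = {l : ℂ | L0 < ‖l‖} ∩ {l : ℂ | ‖l‖ < 2 * l.re} := rfl
  rw [h1]
  exact (isOpen_lt continuous_const continuous_norm).inter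
    (isOpen_lt continuous_norm (continuous_const.mul Complex.continuous_re))

lemma k1_Dom_open (L0 : ℝ) : IsOpen (Dom L0) := by
  have h1 : Dom L0 = (Prod.fst ⁻¹' Om2 L0) ∩ {p : ℂ × ℂ | ‖p.2‖ < 2} := rfl
  rw [h1]
  exact ((k1_Om_open L0).preimage continuous_fst).inter
    (isOpen_lt (continuous_norm.comp continuous_snd) continuous_const)

/-- derivative of a function which is real on the real line -/
lemma k1_deriv_real {f : ℂ → ℂ} {f' : ℂ} (hf : HasDerivAt f f' ((0 : ℝ) : ℂ))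
    (hr : ∀ x : ℝ, |x| < 2 → (f x).im = 0) : f'.im = 0 := by
  have h1 : HasDerivAt (fun y : ℝ => f y) f' 0 := hf.comp_ofReal
  have h2 : HasDerivAt (fun y : ℝ => (f y).im) f'.im 0 := by
    have h3 := (Complex.imCLM.hasFDerivAt (x := f ((0 : ℝ) : ℂ))).comp_hasDerivAt (0 : ℝ) h1
    exact h3
  have h4 : (fun y : ℝ => (f y).im) =ᶠ[𝓝 0] fun _ => 0 := by
    have h5 : ball (0 : ℝ) 2 ∈ 𝓝 (0 : ℝ) := ball_mem_nhds _ (by norm_num)
    filter_upwards [h5] with y hy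
    rw [mem_ball_zero_iff, Real.norm_eq_abs] at hy
    exact hr y hy
  have h6 : HasDerivAt (fun y : ℝ => (f y).im) 0 0 := (hasDerivAt_const (0 : ℝ) (0 : ℝ)).congr_of_eventuallyEq h4
  exact h2.unique h6

section

variable {L0 : ℝ} {k : ℕ} {o s : ℝ} {u E : ℂ → ℂ → ℂ}

lemma k1_sq {r : ℝ} (hr : r = 1 ∨ r = -1) : (r : ℂ) * (r : ℂ) = 1 ∧ ‖(r : ℂ)‖ = 1 := by
  rcases hr with h | h
  · rw [h]
    norm_num
  · rw [h]
    norm_num

/-- the large trace -/
def k1_P (k : ℕ) (E : ℂ → ℂ → ℂ) (l w : ℂ) : ℂ := XX l (k + 1) (E l w)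

lemma k1_slice {f : ℂ × ℂ → ℂ} (hf : DifferentiableOn ℂ f (Dom L0)) {l : ℂ} (hl : l ∈ Om2 L0) :
    DifferentiableOn ℂ (fun w => f (l, w)) (ball 0 2) := by
  have h1 : Differentiable ℂ (fun w : ℂ => ((l, w) : ℂ × ℂ)) :=
    (differentiable_const l).prodMk differentiable_id
  exact hf.comp h1.differentiableOn (fun w hw => ⟨hl, mem_ball_zero_iff.mp hw⟩)

lemma k1_comp (n : ℕ) (hE : DifferentiableOn ℂ (fun p : ℂ × ℂ => E p.1 p.2) (Dom L0)) :
    DifferentiableOn ℂ (fun p : ℂ × ℂ => XX p.1 n (E p.1 p.2)) (Dom L0) := by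
  have h1 : DifferentiableOn ℂ (fun p : ℂ × ℂ => ((p.1, E p.1 p.2) : ℂ × ℂ)) (Dom L0) :=
    differentiableOn_fst.prodMk hE
  exact (k1_XX_diff n).comp_differentiableOn h1

lemma k1_loc (hPre : Pre L0 k o s u E) (hL : 100000 ≤ L0) {r : ℝ} (hr : r = 1 ∨ r = -1) {l : ℂ}
    (hl : l ∈ Om2 L0) : k1_Loc l (r : ℂ) (s : ℂ) (u l) (k1_P k E l) where
  big := hL.trans hl.1.le
  rr := (k1_sq hr).1
  ss := (k1_sq hPre.ss).1
  nr := (k1_sq hr).2
  ns := (k1_sq hPre.ss).2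
  dU := k1_slice hPre.an_u hl
  dP := k1_slice (k1_comp (k + 1) hPre.an_E) hl
  ub := fun w hw => hPre.ub l w ⟨hl, hw⟩
  du := fun w hw => hPre.du l w ⟨hl, hw⟩
  pb := fun w hw => hPre.t1 l w ⟨hl, hw⟩
  inv := fun w hw => by
    have h1 := k1_inv l k (E l w)
    rw [hPre.t0 l w ⟨hl, hw⟩, hPre.t2 l w ⟨hl, hw⟩] at h1
    exact h1

lemma k1_next (hPre : Pre L0 k o s u E) {l w : ℂ} (hl : l ∈ Om2 L0) (hw : ‖w‖ < 2) :
    XX l (k + 3) (E l w) = 2 * w * k1_P k E l w - u l w ∧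
      XX l (k + 4) (E l w) = k1_g (u l) (k1_P k E l) w := by
  have h0 := hPre.t0 l w ⟨hl, hw⟩
  have h2 := hPre.t2 l w ⟨hl, hw⟩
  have h3 : XX l (k + 3) (E l w) = 2 * w * k1_P k E l w - u l w := by
    have : XX l (k + 3) (E l w) = 2 * XX l (k + 2) (E l w) * XX l (k + 1) (E l w) -
        XX l k (E l w) := by simp only [XX]
    rw [this, h0, h2]
    rfl
  refine ⟨h3, ?_⟩
  have h4 : XX l (k + 4) (E l w) = 2 * XX l (k + 3) (E l w) * XX l (k + 2) (E l w) -
      XX l (k + 1) (E l w) := by simp only [XX]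
  rw [h4, h3, h2]
  unfold k1_g k1_P
  ring

/-- the inverse branch -/
def k1_zeta (k : ℕ) (E : ℂ → ℂ → ℂ) (r : ℝ) (l z : ℂ) : ℂ :=
  Classical.epsilon (fun w : ℂ => ‖w - (r : ℂ) / 2‖ ≤ 1 / 4 ∧ XX l (k + 4) (E l w) = z)

lemma k1_zeta_spec (hPre : Pre L0 k o s u E) (hL : 100000 ≤ L0) {r : ℝ} (hr : r = 1 ∨ r = -1)
    {l z : ℂ} (hlz : (l, z) ∈ Dom L0) :
    ‖k1_zeta k E r l z - (r : ℂ) / 2‖ ≤ 1 / 4 ∧ XX l (k + 4) (E l (k1_zeta k E r l z)) = z := by
  have h := k1_loc hPre hL hr hlz.1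
  obtain ⟨w, -, hw, hg⟩ := k1_exists h hlz.2 Set.univ isClosed_univ (Set.mem_univ _)
    (fun _ _ _ => Set.mem_univ _)
  have h1 : ∃ w : ℂ, ‖w - (r : ℂ) / 2‖ ≤ 1 / 4 ∧ XX l (k + 4) (E l w) = z :=
    ⟨w, hw, by
      have := k1_norm_lt h hw
      rw [(k1_next hPre hlz.1 (by linarith)).2, hg]⟩
  exact Classical.epsilon_spec h1

lemma k1_zeta_un (hPre : Pre L0 k o s u E) (hL : 100000 ≤ L0) {r : ℝ} (hr : r = 1 ∨ r = -1)
    {l z w : ℂ} (hlz : (l, z) ∈ Dom L0) (hw : ‖w - (r : ℂ) / 2‖ ≤ 1 / 4)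
    (hg : XX l (k + 4) (E l w) = z) : w = k1_zeta k E r l z := by
  have h := k1_loc hPre hL hr hlz.1
  obtain ⟨h1, h2⟩ := k1_zeta_spec hPre hL hr hlz
  have h3 := k1_norm_lt h hw
  have h4 := k1_norm_lt h h1
  refine k1_inj h hw h1 ?_
  rw [← (k1_next hPre hlz.1 (by linarith)).2, ← (k1_next hPre hlz.1 (by linarith)).2, h2, hg]

lemma k1_zeta_g (hPre : Pre L0 k o s u E) (hL : 100000 ≤ L0) {r : ℝ} (hr : r = 1 ∨ r = -1)
    {l z : ℂ} (hlz : (l, z) ∈ Dom L0) :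
    k1_g (u l) (k1_P k E l) (k1_zeta k E r l z) = z := by
  have h := k1_loc hPre hL hr hlz.1
  obtain ⟨h1, h2⟩ := k1_zeta_spec hPre hL hr hlz
  have h4 := k1_norm_lt h h1
  rw [← (k1_next hPre hlz.1 (by linarith)).2, h2]

lemma k1_zeta_z2 (hPre : Pre L0 k o s u E) (hL : 100000 ≤ L0) {r : ℝ} (hr : r = 1 ∨ r = -1)
    {l z : ℂ} (hlz : (l, z) ∈ Dom L0) :
    ‖k1_zeta k E r l z - (r : ℂ) / 2‖ ≤ 4 * (1 / ‖l‖) :=
  k1_z2 (k1_loc hPre hL hr hlz.1) hlz.2 (k1_zeta_spec hPre hL hr hlz).1 (k1_zeta_g hPre hL hr hlz)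

lemma k1_zeta_lt (hPre : Pre L0 k o s u E) (hL : 100000 ≤ L0) {r : ℝ} (hr : r = 1 ∨ r = -1)
    {l z : ℂ} (hlz : (l, z) ∈ Dom L0) : (l, k1_zeta k E r l z) ∈ Dom L0 := by
  have h4 := k1_norm_lt (k1_loc hPre hL hr hlz.1) (k1_zeta_spec hPre hL hr hlz).1
  exact ⟨hlz.1, by
    show ‖k1_zeta k E r l z‖ < 2
    linarith⟩

/-- continuity of the inverse branch -/
lemma k1_zeta_cont (hPre : Pre L0 k o s u E) (hL : 100000 ≤ L0) {r : ℝ} (hr : r = 1 ∨ r = -1)
    {p : ℂ × ℂ} (hp : p ∈ Dom L0) :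
    ContinuousAt (fun q : ℂ × ℂ => k1_zeta k E r q.1 q.2) p := by
  have hmem : Dom L0 ∈ 𝓝 p := (k1_Dom_open L0).mem_nhds hp
  set w0 := k1_zeta k E r p.1 p.2 with hw0
  have h1 := k1_zeta_spec hPre hL hr (l := p.1) (z := p.2) hp
  have h2 : (p.1, w0) ∈ Dom L0 := k1_zeta_lt hPre hL hr (l := p.1) (z := p.2) hp
  have hΦ : ContinuousAt (fun q : ℂ × ℂ => q.2 - XX q.1 (k + 4) (E q.1 w0)) p := by
    have h3 : ContinuousAt (fun q : ℂ × ℂ => XX q.1 (k + 4) (E q.1 q.2)) (p.1, w0) :=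
      ((k1_comp (k + 4) hPre.an_E).differentiableAt ((k1_Dom_open L0).mem_nhds h2)).continuousAt
    have h4 : ContinuousAt (fun q : ℂ × ℂ => ((q.1, w0) : ℂ × ℂ)) p :=
      (continuous_fst.prodMk continuous_const).continuousAt
    have h5 : ContinuousAt (fun q : ℂ × ℂ => XX q.1 (k + 4) (E q.1 w0)) p :=
      ContinuousAt.comp (g := fun q : ℂ × ℂ => XX q.1 (k + 4) (E q.1 q.2))
        (f := fun q : ℂ × ℂ => ((q.1, w0) : ℂ × ℂ)) h3 h4
    exact continuous_snd.continuousAt.sub h5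
  have hbound : ∀ᶠ q in 𝓝 p, ‖k1_zeta k E r q.1 q.2 - w0‖ ≤
      ‖q.2 - XX q.1 (k + 4) (E q.1 w0)‖ := by
    filter_upwards [hmem] with q hq
    have h := k1_loc hPre hL hr (l := q.1) hq.1
    have h3 := k1_zeta_spec hPre hL hr (l := q.1) (z := q.2) hq
    have h4 := k1_lower h h3.1 h1.1
    have h5 := k1_norm_lt h h1.1
    rw [k1_zeta_g hPre hL hr (l := q.1) (z := q.2) hq,
      ← (k1_next hPre hq.1 (w := w0) (by linarith)).2] at h4
    refine le_trans ?_ h4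
    have h6 := h.big
    have h7 := norm_nonneg (k1_zeta k E r q.1 q.2 - w0)
    nlinarith
  have h6 : Tendsto (fun q : ℂ × ℂ => ‖q.2 - XX q.1 (k + 4) (E q.1 w0)‖) (𝓝 p) (𝓝 0) := by
    have h7 := hΦ.norm.tendsto
    rw [h1.2, sub_self, norm_zero] at h7
    exact h7
  have h8 : Tendsto (fun q : ℂ × ℂ => ‖k1_zeta k E r q.1 q.2 - w0‖) (𝓝 p) (𝓝 0) :=
    squeeze_zero' (Eventually.of_forall fun _ => norm_nonneg _) hbound h6
  exact tendsto_iff_norm_sub_tendsto_zero.mpr h8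

/-- the shear -/
def k1_shear (Φ' : ℂ × ℂ →L[ℂ] ℂ) (h : Φ' (0, 1) ≠ 0) : (ℂ × ℂ) ≃L[ℂ] (ℂ × ℂ) :=
  ContinuousLinearEquiv.equivOfInverse
    ((ContinuousLinearMap.fst ℂ ℂ ℂ).prod Φ')
    ((ContinuousLinearMap.fst ℂ ℂ ℂ).prod
      ((Φ' (0, 1))⁻¹ • (ContinuousLinearMap.snd ℂ ℂ ℂ -
        (Φ' (1, 0)) • ContinuousLinearMap.fst ℂ ℂ ℂ)))
    (by
      rintro ⟨x, y⟩
      have h1 : Φ' (x, y) = x * Φ' (1, 0) + y * Φ' (0, 1) := by
        have : ((x, y) : ℂ × ℂ) = x • ((1, 0) : ℂ × ℂ) + y • ((0, 1) : ℂ × ℂ) := by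
          simp
        rw [this, map_add, map_smul, map_smul, smul_eq_mul, smul_eq_mul]
      simp only [ContinuousLinearMap.prod_apply, ContinuousLinearMap.coe_fst', smul_apply,
        sub_apply, ContinuousLinearMap.coe_snd', smul_eq_mul]
      rw [h1]
      ext
      · rfl
      · show (Φ' (0, 1))⁻¹ * (x * Φ' (1, 0) + y * Φ' (0, 1) - Φ' (1, 0) * x) = y
        field_simp
        ring)
    (by
      rintro ⟨x, y⟩
      have h1 : ∀ a b : ℂ, Φ' (a, b) = a * Φ' (1, 0) + b * Φ' (0, 1) := by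
        intro a b
        have : ((a, b) : ℂ × ℂ) = a • ((1, 0) : ℂ × ℂ) + b • ((0, 1) : ℂ × ℂ) := by
          simp
        rw [this, map_add, map_smul, map_smul, smul_eq_mul, smul_eq_mul]
      simp only [ContinuousLinearMap.prod_apply, ContinuousLinearMap.coe_fst', smul_apply,
        sub_apply, ContinuousLinearMap.coe_snd', smul_eq_mul]
      rw [h1]
      ext
      · rfl
      · show x * Φ' (1, 0) + (Φ' (0, 1))⁻¹ * (y - Φ' (1, 0) * x) * Φ' (0, 1) = y
        field_simp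
        ring)

/-- the inverse branch is analytic -/
lemma k1_zeta_diff (hPre : Pre L0 k o s u E) (hL : 100000 ≤ L0) {r : ℝ} (hr : r = 1 ∨ r = -1) :
    DifferentiableOn ℂ (fun q : ℂ × ℂ => k1_zeta k E r q.1 q.2) (Dom L0) := by
  intro p hp
  apply DifferentiableAt.differentiableWithinAt
  have hmem : Dom L0 ∈ 𝓝 p := (k1_Dom_open L0).mem_nhds hp
  set w0 := k1_zeta k E r p.1 p.2 with hw0
  have h := k1_loc hPre hL hr (l := p.1) hp.1
  have h1 := k1_zeta_spec hPre hL hr (l := p.1) (z := p.2) hp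
  have h2 : (p.1, w0) ∈ Dom L0 := k1_zeta_lt hPre hL hr (l := p.1) (z := p.2) hp
  set Φ : ℂ × ℂ → ℂ := fun q => XX q.1 (k + 4) (E q.1 q.2) with hΦdef
  have hΦ : DifferentiableAt ℂ Φ (p.1, w0) :=
    (k1_comp (k + 4) hPre.an_E).differentiableAt ((k1_Dom_open L0).mem_nhds h2)
  have hΦ' := hΦ.hasFDerivAt
  have hpart : (fderiv ℂ Φ (p.1, w0)) (0, 1) = k1_gp p.1 s (u p.1) (k1_P k E p.1) w0 := by
    have h3 : HasDerivAt (fun w : ℂ => ((p.1, w) : ℂ × ℂ)) (0, 1) w0 :=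
      (hasDerivAt_const w0 p.1).prodMk (hasDerivAt_id w0)
    have h4 := hΦ'.comp_hasDerivAt w0 h3
    have h5 : (Φ ∘ fun w : ℂ => ((p.1, w) : ℂ × ℂ)) =ᶠ[𝓝 w0] k1_g (u p.1) (k1_P k E p.1) := by
      have h6 : ball (0 : ℂ) 2 ∈ 𝓝 w0 := isOpen_ball.mem_nhds (mem_ball_zero_iff.mpr h2.2)
      filter_upwards [h6] with w hw
      exact (k1_next hPre hp.1 (mem_ball_zero_iff.mp hw)).2
    exact (h4.congr_of_eventuallyEq h5.symm).unique (k1_g_deriv h (w := w0) h2.2)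
  have hne : (fderiv ℂ Φ (p.1, w0)) (0, 1) ≠ 0 := by
    rw [hpart]
    intro h0
    have h3 := (k1_gp_norm h (w := w0) h1.1).1
    rw [h0, norm_zero] at h3
    linarith [h.big]
  have hf : HasFDerivAt (fun q : ℂ × ℂ => ((q.1, Φ q) : ℂ × ℂ))
      ((k1_shear (fderiv ℂ Φ (p.1, w0)) hne : (ℂ × ℂ) ≃L[ℂ] (ℂ × ℂ)) : (ℂ × ℂ) →L[ℂ] (ℂ × ℂ))
      (p.1, w0) := by
    have h3 : HasFDerivAt (fun q : ℂ × ℂ => ((q.1, Φ q) : ℂ × ℂ))
      ((ContinuousLinearMap.fst ℂ ℂ ℂ).prod (fderiv ℂ Φ (p.1, w0))) (p.1, w0) :=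
      hasFDerivAt_fst.prodMk hΦ'
    exact h3
  have hcont : ContinuousAt (fun q : ℂ × ℂ => ((q.1, k1_zeta k E r q.1 q.2) : ℂ × ℂ)) p :=
    continuous_fst.continuousAt.prodMk (k1_zeta_cont hPre hL hr hp)
  have hloc : ∀ᶠ q in 𝓝 p, (fun q : ℂ × ℂ => ((q.1, Φ q) : ℂ × ℂ))
      ((fun q : ℂ × ℂ => ((q.1, k1_zeta k E r q.1 q.2) : ℂ × ℂ)) q) = q := by
    filter_upwards [hmem] with q hq
    show ((q.1, XX q.1 (k + 4) (E q.1 (k1_zeta k E r q.1 q.2))) : ℂ × ℂ) = q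
    rw [(k1_zeta_spec hPre hL hr (l := q.1) (z := q.2) hq).2]
  have h3 := HasFDerivAt.of_local_left_inverse hcont hf hloc
  exact h3.differentiableAt.snd

/-- its derivative in the second variable -/
lemma k1_zeta_deriv (hPre : Pre L0 k o s u E) (hL : 100000 ≤ L0) {r : ℝ} (hr : r = 1 ∨ r = -1)
    {l z : ℂ} (hlz : (l, z) ∈ Dom L0) :
    HasDerivAt (k1_zeta k E r l) (k1_gp l s (u l) (k1_P k E l) (k1_zeta k E r l z))⁻¹ z := by
  have h := k1_loc hPre hL hr hlz.1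
  have h1 := k1_zeta_spec hPre hL hr hlz
  have h2 := k1_zeta_lt hPre hL hr hlz
  have hcont : ContinuousAt (k1_zeta k E r l) z := by
    have h3 := k1_zeta_cont hPre hL hr hlz
    have h4 : ContinuousAt (fun z : ℂ => ((l, z) : ℂ × ℂ)) z :=
      (continuous_const.prodMk continuous_id).continuousAt
    exact ContinuousAt.comp (g := fun q : ℂ × ℂ => k1_zeta k E r q.1 q.2)
      (f := fun z : ℂ => ((l, z) : ℂ × ℂ)) h3 h4
  have hne : k1_gp l s (u l) (k1_P k E l) (k1_zeta k E r l z) ≠ 0 := by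
    intro h0
    have h3 := (k1_gp_norm h h1.1).1
    rw [h0, norm_zero] at h3
    linarith [h.big]
  refine HasDerivAt.of_local_left_inverse hcont (k1_g_deriv h h2.2) hne ?_
  have h6 : ball (0 : ℂ) 2 ∈ 𝓝 z := isOpen_ball.mem_nhds (mem_ball_zero_iff.mpr hlz.2)
  filter_upwards [h6] with y hy
  exact k1_zeta_g hPre hL hr (l := l) (z := y) ⟨hlz.1, mem_ball_zero_iff.mp hy⟩

lemma k1_new_deriv (hPre : Pre L0 k o s u E) (hL : 100000 ≤ L0) {r : ℝ} (hr : r = 1 ∨ r = -1)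
    {l z : ℂ} (hlz : (l, z) ∈ Dom L0) :
    deriv (fun z => E l (k1_zeta k E r l z)) z = deriv (E l) (k1_zeta k E r l z) *
      (k1_gp l s (u l) (k1_P k E l) (k1_zeta k E r l z))⁻¹ := by
  have h2 := k1_zeta_lt hPre hL hr hlz
  have h3 : DifferentiableOn ℂ (E l) (ball 0 2) := k1_slice hPre.an_E hlz.1
  have h4 : HasDerivAt (E l) (deriv (E l) (k1_zeta k E r l z)) (k1_zeta k E r l z) :=
    (h3.differentiableAt (isOpen_ball.mem_nhds (mem_ball_zero_iff.mpr h2.2))).hasDerivAt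
  exact (h4.comp z (k1_zeta_deriv hPre hL hr hlz)).deriv

/-- the normalised derivative -/
def k1_D (E : ℂ → ℂ → ℂ) (l w : ℂ) : ℂ := deriv (E l) w / deriv (E l) 0

lemma k1_D_diff (hPre : Pre L0 k o s u E) {l : ℂ} (hl : l ∈ Om2 L0) :
    DifferentiableOn ℂ (k1_D E l) (ball 0 2) := by
  have h3 : DifferentiableOn ℂ (E l) (ball 0 2) := k1_slice hPre.an_E hl
  exact (h3.deriv isOpen_ball).div_const _

lemma k1_D_one (hPre : Pre L0 k o s u E) {l : ℂ} (hl : l ∈ Om2 L0) (w : ℂ) (hw : ‖w‖ < 2) :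
    ‖k1_D E l w - 1‖ ≤ 10 / ‖l‖ := hPre.dE l w ⟨hl, hw⟩

lemma k1_zero_mem {l : ℂ} (hl : l ∈ Om2 L0) : (l, (0 : ℂ)) ∈ Dom L0 :=
  ⟨hl, by rw [norm_zero]; norm_num⟩

/-- the ratio of the derivatives -/
lemma k1_dist (hPre : Pre L0 k o s u E) (hL : 100000 ≤ L0) {r : ℝ} (hr : r = 1 ∨ r = -1)
    {l z : ℂ} (hlz : (l, z) ∈ Dom L0) :
    ‖deriv (fun z => E l (k1_zeta k E r l z)) z / deriv (fun z => E l (k1_zeta k E r l z)) 0 -
      (1 - s * z / l)‖ ≤ 2000 / ‖l‖ ^ 2 := by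
  have h := k1_loc hPre hL hr hlz.1
  have h0 := k1_zero_mem hlz.1
  have hne := hPre.dE0 l 0 h0
  have e := k1_E5 h (k1_D_diff hPre hlz.1) (k1_D_one hPre hlz.1) hlz.2 (k1_zeta_z2 hPre hL hr hlz)
    (k1_zeta_g hPre hL hr hlz) (k1_zeta_z2 hPre hL hr h0) (k1_zeta_g hPre hL hr h0)
  rw [k1_new_deriv hPre hL hr hlz, k1_new_deriv hPre hL hr h0]
  have e2 : k1_D E l (k1_zeta k E r l z) * k1_gp l s (u l) (k1_P k E l) (k1_zeta k E r l 0) /
      (k1_D E l (k1_zeta k E r l 0) * k1_gp l s (u l) (k1_P k E l) (k1_zeta k E r l z)) =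
      deriv (E l) (k1_zeta k E r l z) * (k1_gp l s (u l) (k1_P k E l) (k1_zeta k E r l z))⁻¹ /
      (deriv (E l) (k1_zeta k E r l 0) *
        (k1_gp l s (u l) (k1_P k E l) (k1_zeta k E r l 0))⁻¹) := by
    unfold k1_D
    rw [div_mul_eq_mul_div, div_mul_eq_mul_div, div_div_div_cancel_right₀ hne]
    rw [← div_eq_mul_inv, ← div_eq_mul_inv, div_div_div_eq]
    congr 1
    ring
  rw [← e2]
  exact e

lemma k1_d1 (hPre : Pre L0 k o s u E) (hL : 100000 ≤ L0) {r : ℝ} (hr : r = 1 ∨ r = -1)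
    {l : ℂ} (hl : l ∈ Om2 L0) :
    deriv (fun z => E l (k1_zeta k E r l z)) 0 / deriv (E l) 0 =
      k1_D E l (k1_zeta k E r l 0) / k1_gp l s (u l) (k1_P k E l) (k1_zeta k E r l 0) := by
  rw [k1_new_deriv hPre hL hr (k1_zero_mem hl)]
  unfold k1_D
  ring

/-- the inverse branch is real for real arguments -/
lemma k1_zeta_real (hPre : Pre L0 k o s u E) (hL : 100000 ≤ L0) {r : ℝ} (hr : r = 1 ∨ r = -1)
    {l z : ℝ} (hlz : ((l : ℂ), (z : ℂ)) ∈ Dom L0) : (k1_zeta k E r l z).im = 0 := by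
  have h := k1_loc hPre hL hr hlz.1
  obtain ⟨w, hwS, hw, hg⟩ := k1_exists h hlz.2 {w : ℂ | w.im = 0}
    (isClosed_eq Complex.continuous_im continuous_const) (by
      show ((r : ℂ) / 2).im = 0
      have : ((r : ℂ) / 2) = ((r / 2 : ℝ) : ℂ) := by push_cast; ring
      rw [this]
      exact Complex.ofReal_im _) (by
      intro w hwS hw
      obtain ⟨x, rfl⟩ := k1_real hwS
      have hx := k1_norm_lt h hw
      have hxD : ((l : ℂ), (x : ℂ)) ∈ Dom L0 := ⟨hlz.1, by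
        show ‖(x : ℂ)‖ < 2
        linarith⟩
      obtain ⟨a, ha⟩ := k1_real (hPre.re_u l x hxD)
      obtain ⟨b, hb⟩ := k1_real (hPre.re_E l x hxD)
      have hP : k1_P k E l x = ((X l (k + 1) b : ℝ) : ℂ) := by
        unfold k1_P
        rw [← hb, k1_XX_ofReal]
      have e : (x : ℂ) - (k1_g (u l) (k1_P k E l) x - z) / (2 * r * s * l) =
          ((x - (((4 * x ^ 2 - 1) * X l (k + 1) b - 2 * x * a) - z) / (2 * r * s * l) : ℝ) : ℂ) := by
        unfold k1_g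
        rw [hP, ← ha]
        push_cast
        ring
      show ((x : ℂ) - (k1_g (u l) (k1_P k E l) x - z) / (2 * r * s * l)).im = 0
      rw [e]
      exact Complex.ofReal_im _)
  have h1 := k1_norm_lt h hw
  have h2 := k1_zeta_un hPre hL hr hlz hw (by
    rw [(k1_next hPre hlz.1 (by linarith)).2, hg])
  rw [← h2]
  exact hwS

/-- the sign of the derivative -/
lemma k1_sign (hPre : Pre L0 k o s u E) (hL : 100000 ≤ L0) {r : ℝ} (hr : r = 1 ∨ r = -1)
    {l : ℝ} (hl : (l : ℂ) ∈ Om2 L0) :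
    0 < (r * s * o) * (deriv (fun z => E l (k1_zeta k E r l z)) 0).re := by
  have h := k1_loc hPre hL hr hl
  have h0 := k1_zero_mem hl
  have hlpos : 0 < l := by
    have h1 := hl.2
    rw [Complex.ofReal_re] at h1
    have h2 := norm_nonneg (l : ℂ)
    linarith
  obtain ⟨ν1, ν2, ν3⟩ := k1_nu h
  have hne := hPre.dE0 l 0 h0
  -- the derivative of E is real
  have hE0 : DifferentiableOn ℂ (E l) (ball 0 2) := k1_slice hPre.an_E hl
  have hderiv : HasDerivAt (E l) (deriv (E l) 0) ((0 : ℝ) : ℂ) := by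
    rw [Complex.ofReal_zero]
    exact (hE0.differentiableAt (isOpen_ball.mem_nhds (mem_ball_self (by norm_num)))).hasDerivAt
  have him : (deriv (E l) 0).im = 0 := k1_deriv_real hderiv (fun x hx => hPre.re_E l x ⟨hl, by
    show ‖(x : ℂ)‖ < 2
    rw [Complex.norm_real, Real.norm_eq_abs]
    exact hx⟩)
  obtain ⟨f, hf⟩ := k1_real him
  have hsg := hPre.sg l hl
  rw [← hf, Complex.ofReal_re] at hsg
  -- the quotient
  set w0 := k1_zeta k E r l 0 with hw0
  set G := k1_gp l s (u l) (k1_P k E l) w0 with hG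
  set q : ℂ := k1_D E l w0 / G with hq
  have hd := k1_zeta_z2 hPre hL hr h0
  have hG0 := k1_G0 h hd (k1_zeta_g hPre hL hr h0)
  have hwlt := k1_zeta_lt hPre hL hr h0
  have hGn := (k1_gp_norm h (k1_zeta_spec hPre hL hr h0).1).1
  have hN := h.big
  have hGne : G ≠ 0 := by
    intro h1
    rw [← hw0, ← hG, h1, norm_zero] at hGn
    linarith
  have hU0 := h.ub 0 (by rw [norm_zero]; norm_num)
  have hclose : ‖2 * r * s * l * q - 1‖ < 1 := by
    have e : 2 * r * s * l * q - 1 = (2 * r * s * l * (k1_D E l w0 - 1) -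
        ((G - (2 * r * s * l + 2 * u l 0)) + 2 * u l 0)) / G := by
      rw [hq, eq_div_iff hGne, sub_mul, mul_assoc, div_mul_cancel₀ _ hGne]
      ring
    rw [e, norm_div, div_lt_one (lt_of_lt_of_le (by positivity) hGn)]
    have hc : ‖2 * r * s * (l : ℂ)‖ = 2 * ‖(l : ℂ)‖ := by
      rw [norm_mul, norm_mul, norm_mul, h.ns, h.nr]
      have : ‖(2 : ℂ)‖ = 2 := by norm_num
      rw [this]
      ring
    have t1 : ‖2 * r * s * l * (k1_D E l w0 - 1)‖ ≤ 20 := by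
      rw [norm_mul, hc]
      have h5 := k1_D_one hPre hl w0 hwlt.2
      have h6 : (10 : ℝ) / ‖(l : ℂ)‖ = 10 * (1 / ‖(l : ℂ)‖) := by ring
      rw [h6] at h5
      calc 2 * ‖(l : ℂ)‖ * ‖k1_D E l w0 - 1‖ ≤ 2 * ‖(l : ℂ)‖ * (10 * (1 / ‖(l : ℂ)‖)) :=
            mul_le_mul_of_nonneg_left h5 (by positivity)
        _ = 20 * (‖(l : ℂ)‖ * (1 / ‖(l : ℂ)‖)) := by ring
        _ = 20 := by rw [ν3, mul_one]
    have n2 : ‖(2 : ℂ)‖ ≤ 2 := by norm_num
    have t2 : ‖(G - (2 * r * s * l + 2 * u l 0)) + 2 * u l 0‖ ≤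
        370 * (1 / ‖(l : ℂ)‖) + 2 * (11 / 10) :=
      norm_add_le_of_le hG0 (norm_mul_le_of_le n2 hU0)
    refine lt_of_le_of_lt (norm_sub_le_of_le t1 t2) (lt_of_lt_of_le ?_ hGn)
    linarith
  have hpos : 0 < (2 * r * s * l * q).re := by
    have h5 := Complex.abs_re_le_norm (2 * r * s * l * q - 1)
    rw [Complex.sub_re, Complex.one_re] at h5
    have h6 := (abs_lt.mp (lt_of_le_of_lt h5 hclose)).1
    linarith
  have hre : (2 * r * s * l * q).re = 2 * r * s * l * q.re := by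
    have : (2 * r * s * l * q : ℂ) = ((2 * r * s * l : ℝ) : ℂ) * q := by push_cast; ring
    rw [this, Complex.re_ofReal_mul]
  rw [hre] at hpos
  have hrs : 0 < r * s * q.re := by
    have h7 : 0 < (2 * l) * (r * s * q.re) := by
      have : (2 * l) * (r * s * q.re) = 2 * r * s * l * q.re := by ring
      rw [this]
      exact hpos
    exact (pos_iff_pos_of_mul_pos h7).mp (by positivity)
  have hnew : deriv (fun z => E l (k1_zeta k E r l z)) 0 = (f : ℂ) * q := by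
    have h5 := k1_d1 hPre hL hr hl
    rw [div_eq_iff hne] at h5
    rw [h5, ← hf, mul_comm]
  rw [hnew, Complex.re_ofReal_mul]
  have : r * s * o * (f * q.re) = (r * s * q.re) * (o * f) := by ring
  rw [this]
  exact mul_pos hrs hsg

end

theorem st_K1 : ST_K1 := by
  refine ⟨2000, 100000, by norm_num, by norm_num, ?_⟩
  intro L0 k o s u E hL hPre r hr
  have hNb : ∀ l : ℂ, l ∈ Om2 L0 → 100000 ≤ ‖l‖ := fun l hl => hL.trans hl.1.le
  refine ⟨k1_zeta k E r, ?_, ?_, ?_, ?_, ?_⟩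
  · -- sta
    have hdist : ∀ l z : ℂ, (l, z) ∈ Dom L0 →
        ‖deriv (fun z => E l (k1_zeta k E r l z)) z / deriv (fun z => E l (k1_zeta k E r l z)) 0 -
        (1 - ((r * o : ℝ) : ℂ) * ((r * s * o : ℝ) : ℂ) * z / l)‖ ≤ 2000 / ‖l‖ ^ 2 := by
      intro l z hlz
      have h1 := k1_dist hPre hL hr hlz
      have h2 := (k1_sq hr).1
      have h3 := (k1_sq hPre.oo).1
      have e : ((r * o : ℝ) : ℂ) * ((r * s * o : ℝ) : ℂ) * z / l = s * z / l := by
        push_cast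
        have : (r : ℂ) * o * (r * s * o) * z = (r * r) * (o * o) * (s * z) := by ring
        rw [this, h2, h3]
        ring
      rw [e]
      exact h1
    refine { oo := ?_, ss := ?_, an_u := ?_, an_E := ?_, re_u := ?_, re_E := ?_, t0 := ?_,
             t1 := ?_, t2 := ?_, ub := ?_, du := ?_, dE0 := ?_, dE := ?_, sg := ?_, tt := ?_,
             u1 := ?_, dist := hdist }
    · rcases hr with h | h <;> rcases hPre.ss with h' | h' <;> rcases hPre.oo with h'' | h'' <;>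
        rw [h, h', h''] <;> norm_num
    · rcases hr with h | h <;> rcases hPre.ss with h' | h' <;> rw [h, h'] <;> norm_num
    · exact k1_zeta_diff hPre hL hr
    · have h1 : DifferentiableOn ℂ (fun p : ℂ × ℂ => ((p.1, k1_zeta k E r p.1 p.2) : ℂ × ℂ))
          (Dom L0) := differentiableOn_fst.prodMk (k1_zeta_diff hPre hL hr)
      exact hPre.an_E.comp h1 (fun p hp => k1_zeta_lt hPre hL hr (l := p.1) (z := p.2) hp)
    · intro l z hlz
      exact k1_zeta_real hPre hL hr hlz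
    · intro l z hlz
      obtain ⟨x, hx⟩ := k1_real (k1_zeta_real hPre hL hr hlz)
      have h1 := k1_zeta_lt hPre hL hr hlz
      show (E l (k1_zeta k E r l z)).im = 0
      rw [← hx] at h1 ⊢
      exact hPre.re_E l x h1
    · intro l z hlz
      exact hPre.t2 l _ (k1_zeta_lt hPre hL hr hlz)
    · intro l z hlz
      have h := k1_loc hPre hL hr hlz.1
      have h1 := k1_zeta_lt hPre hL hr hlz
      rw [show k + 2 + 1 = k + 3 by ring, (k1_next hPre hlz.1 h1.2).1]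
      have h2 := k1_A2 h hlz.2 (k1_zeta_z2 hPre hL hr hlz) (k1_zeta_g hPre hL hr hlz)
      push_cast
      exact h2
    · intro l z hlz
      rw [show k + 2 + 2 = k + 4 by ring]
      exact (k1_zeta_spec hPre hL hr hlz).2
    · intro l z hlz
      have h4 := k1_norm_lt (k1_loc hPre hL hr hlz.1) (k1_zeta_spec hPre hL hr hlz).1
      linarith
    · intro l z hlz
      have h1 := k1_zeta_z2 hPre hL hr hlz
      have h2 := k1_zeta_z2 hPre hL hr (k1_zero_mem hlz.1)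
      have e : k1_zeta k E r l z - k1_zeta k E r l 0 = (k1_zeta k E r l z - (r : ℂ) / 2) -
          (k1_zeta k E r l 0 - (r : ℂ) / 2) := by ring
      rw [e, show (20 : ℝ) / ‖l‖ = 20 * (1 / ‖l‖) by ring]
      have h3 : 0 ≤ 1 / ‖l‖ := by positivity
      refine (norm_sub_le_of_le h1 h2).trans ?_
      linarith
    · intro l z hlz
      have h := k1_loc hPre hL hr hlz.1
      have h0 := k1_zero_mem hlz.1
      rw [k1_new_deriv hPre hL hr h0]
      have h1 := k1_zeta_lt hPre hL hr h0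
      have hDn := (k1_D_norm h (k1_D_one hPre hlz.1) h1.2).1
      have hGn := (k1_gp_norm h (k1_zeta_spec hPre hL hr h0).1).1
      have hN := h.big
      refine mul_ne_zero ?_ (inv_ne_zero ?_)
      · intro h2
        unfold k1_D at hDn
        rw [h2, zero_div, norm_zero] at hDn
        linarith
      · intro h2
        rw [h2, norm_zero] at hGn
        linarith
    · intro l z hlz
      have h1 := hdist l z hlz
      have hN := hNb l hlz.1
      have hN0 : 0 < ‖l‖ := by linarith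
      have h2 : ‖((r * o : ℝ) : ℂ) * ((r * s * o : ℝ) : ℂ) * z / l‖ ≤ 2 / ‖l‖ := by
        have e : ((r * o : ℝ) : ℂ) * ((r * s * o : ℝ) : ℂ) * z / l = s * z / l := by
          push_cast
          have : (r : ℂ) * o * (r * s * o) * z = (r * r) * (o * o) * (s * z) := by ring
          rw [this, (k1_sq hr).1, (k1_sq hPre.oo).1]
          ring
        rw [e, norm_div, norm_mul, (k1_sq hPre.ss).2, one_mul]
        exact div_le_div_of_nonneg_right hlz.2.le hN0.le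
      have e2 : deriv (fun z => E l (k1_zeta k E r l z)) z /
          deriv (fun z => E l (k1_zeta k E r l z)) 0 - 1 =
          (deriv (fun z => E l (k1_zeta k E r l z)) z /
          deriv (fun z => E l (k1_zeta k E r l z)) 0 -
          (1 - ((r * o : ℝ) : ℂ) * ((r * s * o : ℝ) : ℂ) * z / l)) -
          ((r * o : ℝ) : ℂ) * ((r * s * o : ℝ) : ℂ) * z / l := by ring
      rw [e2]
      refine (norm_sub_le_of_le h1 h2).trans ?_
      have h3 : (2000 : ℝ) / ‖l‖ ^ 2 ≤ 1 / ‖l‖ := by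
        rw [div_le_div_iff₀ (by positivity) hN0]
        nlinarith
      have h4 : (2 : ℝ) / ‖l‖ + 1 / ‖l‖ ≤ 10 / ‖l‖ := by
        rw [← add_div]
        exact div_le_div_of_nonneg_right (by norm_num) hN0.le
      linarith
    · intro l hl
      exact k1_sign hPre hL hr hl
    · rcases hr with h | h <;> rcases hPre.oo with h'' | h'' <;> rw [h, h''] <;> norm_num
    · intro l z hlz
      have h1 := k1_zeta_z2 hPre hL hr hlz
      have e : ((r * o : ℝ) : ℂ) * ((r * s : ℝ) : ℂ) * ((r * s * o : ℝ) : ℂ) / 2 = r / 2 := by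
        push_cast
        have : (r : ℂ) * o * (r * s) * (r * s * o) = (r * r) * (o * o) * (s * s) * r := by ring
        rw [this, (k1_sq hr).1, (k1_sq hPre.oo).1, (k1_sq hPre.ss).1]
        ring
      rw [e, show (2000 : ℝ) / ‖l‖ = 2000 * (1 / ‖l‖) by ring]
      have h3 : 0 ≤ 1 / ‖l‖ := by positivity
      linarith
  · intro l z hlz
    have hN := hNb l hlz.1
    have hN0 : 0 < ‖l‖ := by linarith
    refine (k1_z1 (k1_loc hPre hL hr hlz.1) (k1_zeta_z2 hPre hL hr hlz)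
      (k1_zeta_g hPre hL hr hlz)).trans ?_
    exact div_le_div_of_nonneg_right (by norm_num) (by positivity)
  · intro l z hlz
    rw [show (4 : ℝ) / ‖l‖ = 4 * (1 / ‖l‖) by ring]
    exact k1_zeta_z2 hPre hL hr hlz
  · intro l hl
    have h := k1_loc hPre hL hr hl
    have h0 := k1_zero_mem hl
    rw [k1_d1 hPre hL hr hl]
    exact k1_E6 h (k1_D_diff hPre hl) (k1_D_one hPre hl) (k1_zeta_z2 hPre hL hr h0)
      (k1_zeta_g hPre hL hr h0)
  · intro l z z' hlz hz' hX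
    exact k1_zeta_un hPre hL hr hlz hz' hX

end

end Pool.Agent.Helper36.CV
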