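import Pool.Agent.Helper36.CV.StmtsG

set_option autoImplicit false

namespace Pool.Agent.Helper36.CV

open Filter Topology Metric

noncomputable section

/-- the data at a fixed coupling -/
structure k1_Loc (l r s : ℂ) (U P : ℂ → ℂ) : Prop where
  big : 100000 ≤ ‖l‖
  rr : r * r = 1
  ss : s * s = 1
  nr : ‖r‖ = 1
  ns : ‖s‖ = 1
  dU : DifferentiableOn ℂ U (ball 0 2)
  dP : DifferentiableOn ℂ P (ball 0 2)
  ub : ∀ w, ‖w‖ < 2 → ‖U w‖ ≤ 11 / 10
  du : ∀ w, ‖w‖ < 2 → ‖U w - U 0‖ ≤ 20 / ‖l‖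
  pb : ∀ w, ‖w‖ < 2 → ‖P w - s * l / 2‖ ≤ 3
  inv : ∀ w, ‖w‖ < 2 → (U w) ^ 2 + (P w) ^ 2 + w ^ 2 - 2 * (U w) * (P w) * w - 1 = l ^ 2 / 4

def k1_R (l s : ℂ) (U P : ℂ → ℂ) (w : ℂ) : ℂ := P w - w * U w - s * l / 2

def k1_g (U P : ℂ → ℂ) (w : ℂ) : ℂ := (4 * w ^ 2 - 1) * P w - 2 * w * U w

def k1_gp (l s : ℂ) (U P : ℂ → ℂ) (w : ℂ) : ℂ :=
  4 * w * s * l + (12 * w ^ 2 - 3) * U w + (4 * w ^ 3 - 3 * w) * deriv U w +
    8 * w * k1_R l s U P w + (4 * w ^ 2 - 1) * deriv (k1_R l s U P) w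

lemma k1_cauchy {f : ℂ → ℂ} {M : ℝ} (hf : DifferentiableOn ℂ f (ball 0 2))
    (hM : ∀ w, ‖w‖ < 2 → ‖f w‖ ≤ M) {w : ℂ} (hw : ‖w‖ < 1) : ‖deriv f w‖ ≤ M := by
  have hsub : closedBall w 1 ⊆ ball (0 : ℂ) 2 := by
    intro x hx
    rw [mem_closedBall, dist_eq_norm] at hx
    rw [mem_ball_zero_iff]
    calc ‖x‖ = ‖(x - w) + w‖ := by ring_nf
      _ ≤ ‖x - w‖ + ‖w‖ := norm_add_le _ _
      _ < 2 := by linarith
  have h1 : DiffContOnCl ℂ f (ball w 1) := by
    refine DifferentiableOn.diffContOnCl ?_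
    rw [closure_ball w one_ne_zero]
    exact hf.mono hsub
  have h2 := Complex.norm_deriv_le_of_forall_mem_sphere_norm_le one_pos h1 (C := M) (by
    intro z hz
    exact hM z (mem_ball_zero_iff.mp (hsub (sphere_subset_closedBall hz))))
  simpa using h2

section

variable {l r s : ℂ} {U P : ℂ → ℂ}

lemma k1_R_diff (h : k1_Loc l r s U P) : DifferentiableOn ℂ (k1_R l s U P) (ball 0 2) := by
  unfold k1_R
  exact (h.dP.sub (differentiableOn_id.mul h.dU)).sub (differentiableOn_const _)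

lemma k1_R_bound (h : k1_Loc l r s U P) {w : ℂ} (hw : ‖w‖ < 2) : ‖k1_R l s U P w‖ ≤ 12 / ‖l‖ := by
  have hN := h.big
  have hN0 : 0 < ‖l‖ := by linarith
  have h1 : k1_R l s U P w * (P w - w * U w + s * l / 2) = (1 - U w ^ 2) * (1 - w ^ 2) := by
    have h2 := h.inv w hw
    have h3 := h.ss
    unfold k1_R
    linear_combination h2 - (l ^ 2 / 4) * h3
  have hU := h.ub w hw
  have hP := h.pb w hw
  have h4 : ‖(1 - U w ^ 2) * (1 - w ^ 2)‖ ≤ (1 + (11 / 10) ^ 2) * (1 + 2 ^ 2) := by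
    rw [norm_mul]
    refine mul_le_mul ?_ ?_ (norm_nonneg _) (by norm_num)
    · refine (norm_sub_le _ _).trans ?_
      rw [norm_one, norm_pow]
      have := pow_le_pow_left₀ (norm_nonneg _) hU 2
      linarith
    · refine (norm_sub_le _ _).trans ?_
      rw [norm_one, norm_pow]
      have := pow_le_pow_left₀ (norm_nonneg _) hw.le 2
      linarith
  have h5 : ‖l‖ - 3 - 22 / 10 ≤ ‖P w - w * U w + s * l / 2‖ := by
    have e : s * l = (P w - w * U w + s * l / 2) - (P w - s * l / 2) + w * U w := by ring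
    have e2 : ‖s * l‖ = ‖l‖ := by rw [norm_mul, h.ns, one_mul]
    have e3 : ‖s * l‖ ≤ ‖P w - w * U w + s * l / 2‖ + ‖P w - s * l / 2‖ + ‖w * U w‖ := by
      conv_lhs => rw [e]
      exact (norm_add_le _ _).trans (add_le_add_left (norm_sub_le _ _) _)
    have e4 : ‖w * U w‖ ≤ 2 * (11 / 10) := by
      rw [norm_mul]
      exact mul_le_mul hw.le hU (norm_nonneg _) (by norm_num)
    rw [e2] at e3
    linarith
  have h6 : ‖k1_R l s U P w‖ * (‖l‖ - 3 - 22 / 10) ≤ (1 + (11 / 10) ^ 2) * (1 + 2 ^ 2) := by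
    rw [← h1, norm_mul] at h4
    exact (mul_le_mul_of_nonneg_left h5 (norm_nonneg _)).trans h4
  rw [le_div_iff₀ hN0]
  have h7 := norm_nonneg (k1_R l s U P w)
  nlinarith

lemma k1_dU (h : k1_Loc l r s U P) {w : ℂ} (hw : ‖w‖ < 1) : ‖deriv U w‖ ≤ 20 / ‖l‖ := by
  have h1 := k1_cauchy (f := fun w => U w - U 0) (h.dU.sub (differentiableOn_const _)) h.du hw
  have h2 : deriv (fun w => U w - U 0) w = deriv U w := by
    rw [deriv_sub_const]
  rwa [h2] at h1

lemma k1_dR (h : k1_Loc l r s U P) {w : ℂ} (hw : ‖w‖ < 1) :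
    ‖deriv (k1_R l s U P) w‖ ≤ 12 / ‖l‖ :=
  k1_cauchy (k1_R_diff h) (fun _ => k1_R_bound h) hw

lemma k1_g_eq (l s : ℂ) (U P : ℂ → ℂ) (w : ℂ) : k1_g U P w =
    (2 * w ^ 2 - 1 / 2) * (s * l) + (4 * w ^ 3 - 3 * w) * U w + (4 * w ^ 2 - 1) * k1_R l s U P w := by
  unfold k1_g k1_R
  ring

lemma k1_g_deriv (h : k1_Loc l r s U P) {w : ℂ} (hw : ‖w‖ < 2) :
    HasDerivAt (k1_g U P) (k1_gp l s U P w) w := by
  have hmem : ball (0 : ℂ) 2 ∈ 𝓝 w := isOpen_ball.mem_nhds (mem_ball_zero_iff.mpr hw)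
  have hU : HasDerivAt U (deriv U w) w := (h.dU.differentiableAt hmem).hasDerivAt
  have hR : HasDerivAt (k1_R l s U P) (deriv (k1_R l s U P) w) w :=
    ((k1_R_diff h).differentiableAt hmem).hasDerivAt
  have hid := hasDerivAt_id w
  have h1 : HasDerivAt (fun w : ℂ => 2 * w ^ 2 - 1 / 2) (4 * w) w := by
    have := ((hasDerivAt_pow 2 w).const_mul 2).sub_const (1 / 2)
    refine this.congr_deriv ?_
    norm_num
    ring
  have h2 : HasDerivAt (fun w : ℂ => 4 * w ^ 3 - 3 * w) (12 * w ^ 2 - 3) w := by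
    have := ((hasDerivAt_pow 3 w).const_mul 4).sub ((hasDerivAt_id w).const_mul 3)
    refine this.congr_deriv ?_
    norm_num
    ring
  have h3 : HasDerivAt (fun w : ℂ => 4 * w ^ 2 - 1) (8 * w) w := by
    have := ((hasDerivAt_pow 2 w).const_mul 4).sub_const 1
    refine this.congr_deriv ?_
    norm_num
    ring
  have h4 := ((h1.mul_const (s * l)).add (h2.mul hU)).add (h3.mul hR)
  have h5 : k1_g U P = fun w => (2 * w ^ 2 - 1 / 2) * (s * l) + (4 * w ^ 3 - 3 * w) * U w +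
      (4 * w ^ 2 - 1) * k1_R l s U P w := by
    funext w
    exact k1_g_eq l s U P w
  rw [h5]
  refine h4.congr_deriv ?_
  unfold k1_gp
  ring

lemma k1_norm_lt {w : ℂ} (h : k1_Loc l r s U P) (hw : ‖w - r / 2‖ ≤ 1 / 4) : ‖w‖ ≤ 3 / 4 := by
  have h1 : ‖r / 2‖ = 1 / 2 := by rw [norm_div, h.nr]; norm_num
  calc ‖w‖ = ‖(w - r / 2) + r / 2‖ := by ring_nf
    _ ≤ ‖w - r / 2‖ + ‖r / 2‖ := norm_add_le _ _
    _ ≤ 3 / 4 := by rw [h1]; linarith

/-- the remainder of the derivative -/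
lemma k1_gp_rough (h : k1_Loc l r s U P) {w : ℂ} (hw : ‖w‖ ≤ 3 / 4) :
    ‖k1_gp l s U P w - 4 * w * s * l‖ ≤ 11 := by
  have hN := h.big
  have hN0 : 0 < ‖l‖ := by linarith
  have hU := h.ub w (by linarith)
  have hU' := k1_dU h (w := w) (by linarith)
  have hR := k1_R_bound h (w := w) (by linarith)
  have hR' := k1_dR h (w := w) (by linarith)
  have e : k1_gp l s U P w - 4 * w * s * l = (12 * w ^ 2 - 3) * U w +
      (4 * w ^ 3 - 3 * w) * deriv U w + 8 * w * k1_R l s U P w +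
      (4 * w ^ 2 - 1) * deriv (k1_R l s U P) w := by
    unfold k1_gp
    ring
  have hw2 : ‖w ^ 2‖ ≤ (3 / 4) ^ 2 := by
    rw [norm_pow]
    exact pow_le_pow_left₀ (norm_nonneg _) hw 2
  have hw3 : ‖w ^ 3‖ ≤ (3 / 4) ^ 3 := by
    rw [norm_pow]
    exact pow_le_pow_left₀ (norm_nonneg _) hw 3
  have n12 : ‖(12 : ℂ)‖ ≤ 12 := by norm_num
  have n3 : ‖(3 : ℂ)‖ ≤ 3 := by norm_num
  have n4 : ‖(4 : ℂ)‖ ≤ 4 := by norm_num
  have n8 : ‖(8 : ℂ)‖ ≤ 8 := by norm_num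
  have n1 : ‖(1 : ℂ)‖ ≤ 1 := by norm_num
  have hν : (20 : ℝ) / ‖l‖ ≤ 20 / 100000 := div_le_div_of_nonneg_left (by norm_num) (by norm_num) hN
  have hν2 : (12 : ℝ) / ‖l‖ ≤ 12 / 100000 := div_le_div_of_nonneg_left (by norm_num) (by norm_num) hN
  rw [e]
  have t1 := norm_mul_le_of_le (norm_sub_le_of_le (norm_mul_le_of_le n12 hw2) n3) hU
  have t2 := norm_mul_le_of_le (norm_sub_le_of_le (norm_mul_le_of_le n4 hw3)
    (norm_mul_le_of_le n3 hw)) (hU'.trans hν)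
  have t3 := norm_mul_le_of_le (norm_mul_le_of_le n8 hw) (hR.trans hν2)
  have t4 := norm_mul_le_of_le (norm_sub_le_of_le (norm_mul_le_of_le n4 hw2) n1) (hR'.trans hν2)
  refine (norm_add_le_of_le (norm_add_le_of_le (norm_add_le_of_le t1 t2) t3) t4).trans ?_
  norm_num

lemma k1_gp_bound (h : k1_Loc l r s U P) {w : ℂ} (hw : ‖w - r / 2‖ ≤ 1 / 4) :
    ‖k1_gp l s U P w - 2 * r * s * l‖ ≤ 11 / 10 * ‖l‖ := by
  have h1 := k1_gp_rough h (k1_norm_lt h hw)
  have e : k1_gp l s U P w - 2 * r * s * l = (k1_gp l s U P w - 4 * w * s * l) +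
      4 * (w - r / 2) * s * l := by ring
  have h2 : ‖4 * (w - r / 2) * s * l‖ ≤ ‖l‖ := by
    rw [norm_mul, norm_mul, norm_mul, h.ns]
    have : ‖(4 : ℂ)‖ = 4 := by norm_num
    rw [this]
    nlinarith [norm_nonneg l]
  rw [e]
  refine (norm_add_le _ _).trans ?_
  linarith [h.big]

lemma k1_expand (h : k1_Loc l r s U P) {w w' : ℂ} (hw : ‖w - r / 2‖ ≤ 1 / 4)
    (hw' : ‖w' - r / 2‖ ≤ 1 / 4) :
    ‖(k1_g U P w - k1_g U P w') - 2 * r * s * l * (w - w')‖ ≤ 11 / 10 * ‖l‖ * ‖w - w'‖ := by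
  have h1 : ∀ x ∈ closedBall (r / 2) (1 / 4), HasDerivWithinAt
      (fun w => k1_g U P w - 2 * r * s * l * w) (k1_gp l s U P x - 2 * r * s * l)
      (closedBall (r / 2) (1 / 4)) x := by
    intro x hx
    rw [mem_closedBall, dist_eq_norm] at hx
    have hx2 := k1_norm_lt h hx
    have h2 := (k1_g_deriv h (w := x) (by linarith)).sub
      ((hasDerivAt_id x).const_mul (2 * r * s * l))
    refine HasDerivAt.hasDerivWithinAt (h2.congr_deriv ?_)
    simp
  have h3 := (convex_closedBall (r / 2) (1 / 4 : ℝ)).norm_image_sub_le_of_norm_hasDerivWithin_le h1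
    (C := 11 / 10 * ‖l‖) (by
      intro x hx
      rw [mem_closedBall, dist_eq_norm] at hx
      exact k1_gp_bound h hx) (x := w') (y := w) (by rwa [mem_closedBall, dist_eq_norm])
      (by rwa [mem_closedBall, dist_eq_norm])
  have e : (k1_g U P w - k1_g U P w') - 2 * r * s * l * (w - w') =
      (k1_g U P w - 2 * r * s * l * w) - (k1_g U P w' - 2 * r * s * l * w') := by ring
  rw [e]
  exact h3

lemma k1_lower (h : k1_Loc l r s U P) {w w' : ℂ} (hw : ‖w - r / 2‖ ≤ 1 / 4)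
    (hw' : ‖w' - r / 2‖ ≤ 1 / 4) :
    9 / 10 * ‖l‖ * ‖w - w'‖ ≤ ‖k1_g U P w - k1_g U P w'‖ := by
  have h1 := k1_expand h hw hw'
  have h2 : ‖2 * r * s * l * (w - w')‖ = 2 * ‖l‖ * ‖w - w'‖ := by
    rw [norm_mul, norm_mul, norm_mul, norm_mul, h.ns, h.nr]
    have : ‖(2 : ℂ)‖ = 2 := by norm_num
    rw [this]
    ring
  have h3 : ‖2 * r * s * l * (w - w')‖ ≤ ‖k1_g U P w - k1_g U P w'‖ +
      ‖(k1_g U P w - k1_g U P w') - 2 * r * s * l * (w - w')‖ := by
    have e : 2 * r * s * l * (w - w') = (k1_g U P w - k1_g U P w') -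
        ((k1_g U P w - k1_g U P w') - 2 * r * s * l * (w - w')) := by ring
    conv_lhs => rw [e]
    exact norm_sub_le _ _
  rw [h2] at h3
  nlinarith

lemma k1_inj (h : k1_Loc l r s U P) {w w' : ℂ} (hw : ‖w - r / 2‖ ≤ 1 / 4)
    (hw' : ‖w' - r / 2‖ ≤ 1 / 4) (he : k1_g U P w = k1_g U P w') : w = w' := by
  have h1 := k1_lower h hw hw'
  rw [he, sub_self, norm_zero] at h1
  have hN := h.big
  have h2 : ‖w - w'‖ ≤ 0 := by
    by_contra hcon
    push Not at hcon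
    have : 0 < 9 / 10 * ‖l‖ * ‖w - w'‖ := by positivity
    linarith
  exact sub_eq_zero.mp (norm_le_zero_iff.mp h2)

lemma k1_g_half (h : k1_Loc l r s U P) : ‖k1_g U P (r / 2)‖ ≤ 11 / 10 := by
  have h1 : ‖r / 2‖ = 1 / 2 := by rw [norm_div, h.nr]; norm_num
  have e : k1_g U P (r / 2) = -(r * U (r / 2)) := by
    have := h.rr
    unfold k1_g
    linear_combination (P (r / 2)) * this
  rw [e, norm_neg, norm_mul, h.nr, one_mul]
  exact h.ub _ (by rw [h1]; norm_num)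

/-- existence of the solution in a closed set which is stable under the iteration -/
lemma k1_exists (h : k1_Loc l r s U P) {z : ℂ} (hz : ‖z‖ < 2) (S : Set ℂ) (hS : IsClosed S)
    (hr : r / 2 ∈ S) (hst : ∀ w ∈ S, ‖w - r / 2‖ ≤ 1 / 4 →
      w - (k1_g U P w - z) / (2 * r * s * l) ∈ S) :
    ∃ w ∈ S, ‖w - r / 2‖ ≤ 1 / 4 ∧ k1_g U P w = z := by
  have hN := h.big
  have hN0 : 0 < ‖l‖ := by linarith
  have hl0 : l ≠ 0 := norm_pos_iff.mp hN0
  have hr0 : r ≠ 0 := by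
    intro h0
    have := h.nr
    rw [h0, norm_zero] at this
    exact zero_ne_one this
  have hs0 : s ≠ 0 := by
    intro h0
    have := h.ns
    rw [h0, norm_zero] at this
    exact zero_ne_one this
  have hc0 : 2 * r * s * l ≠ 0 := by
    refine mul_ne_zero (mul_ne_zero (mul_ne_zero two_ne_zero hr0) hs0) hl0
  have hcn : ‖2 * r * s * l‖ = 2 * ‖l‖ := by
    rw [norm_mul, norm_mul, norm_mul, h.ns, h.nr]
    have : ‖(2 : ℂ)‖ = 2 := by norm_num
    rw [this]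
    ring
  set K : Set ℂ := closedBall (r / 2) (1 / 4) ∩ S with hK
  have hKc : IsComplete K := (isClosed_closedBall.inter hS).isComplete
  set T : ℂ → ℂ := fun w => w - (k1_g U P w - z) / (2 * r * s * l) with hT
  have hlip : ∀ w w', ‖w - r / 2‖ ≤ 1 / 4 → ‖w' - r / 2‖ ≤ 1 / 4 →
      ‖T w - T w'‖ ≤ 11 / 20 * ‖w - w'‖ := by
    intro w w' hw hw'
    have h1 := k1_expand h hw hw'
    have e : T w - T w' = -(((k1_g U P w - k1_g U P w') - 2 * r * s * l * (w - w')) /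
        (2 * r * s * l)) := by
      rw [hT]
      field_simp
      ring
    rw [e, norm_neg, norm_div, hcn, div_le_iff₀ (by positivity)]
    nlinarith
  have hTr : ‖T (r / 2) - r / 2‖ ≤ 31 / 20 / ‖l‖ := by
    have e : T (r / 2) - r / 2 = -((k1_g U P (r / 2) - z) / (2 * r * s * l)) := by
      rw [hT]
      ring
    rw [e, norm_neg, norm_div, hcn, div_le_div_iff₀ (by positivity) hN0]
    have h1 := norm_sub_le (k1_g U P (r / 2)) z
    have h2 := k1_g_half h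
    nlinarith
  have hmaps : Set.MapsTo T K K := by
    rintro w ⟨hw1, hw2⟩
    rw [mem_closedBall, dist_eq_norm] at hw1
    refine ⟨?_, hst w hw2 hw1⟩
    rw [mem_closedBall, dist_eq_norm]
    have h1 := hlip w (r / 2) hw1 (by rw [sub_self, norm_zero]; norm_num)
    have h2 : ‖T w - r / 2‖ ≤ ‖T w - T (r / 2)‖ + ‖T (r / 2) - r / 2‖ := by
      have e : T w - r / 2 = (T w - T (r / 2)) + (T (r / 2) - r / 2) := by ring
      conv_lhs => rw [e]
      exact norm_add_le _ _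
    have h3 : (31 : ℝ) / 20 / ‖l‖ ≤ 31 / 20 / 100000 :=
      div_le_div_of_nonneg_left (by norm_num) (by norm_num) hN
    linarith
  have hcontr : ContractingWith (11 / 20 : NNReal) (hmaps.restrict T K K) := by
    constructor
    · rw [← NNReal.coe_lt_coe]
      norm_num
    · refine LipschitzWith.of_dist_le_mul fun x y => ?_
      have h1 := hlip x.1 y.1 (by
        have := x.2.1
        rwa [mem_closedBall, dist_eq_norm] at this) (by
        have := y.2.1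
        rwa [mem_closedBall, dist_eq_norm] at this)
      show dist (T x.1) (T y.1) ≤ _
      rw [dist_eq_norm]
      show _ ≤ _ * dist x.1 y.1
      rw [dist_eq_norm]
      push_cast
      exact h1
  have hrK : r / 2 ∈ K := ⟨mem_closedBall_self (by norm_num), hr⟩
  obtain ⟨y, hyK, hy, -⟩ := hcontr.exists_fixedPoint' hKc hmaps hrK (edist_ne_top _ _)
  have hyfix : T y = y := hy
  have h1 : (k1_g U P y - z) / (2 * r * s * l) = 0 := by
    have : y - (k1_g U P y - z) / (2 * r * s * l) = y := hyfix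
    linear_combination -this
  have h2 := (div_eq_zero_iff.mp h1).resolve_right hc0
  refine ⟨y, hyK.2, ?_, sub_eq_zero.mp h2⟩
  have := hyK.1
  rwa [mem_closedBall, dist_eq_norm] at this

end

end

end Pool.Agent.Helper36.CV
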