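import Pool.Agent.Helper35.CV.K1a

set_option autoImplicit false

namespace Pool.Agent.Helper36.CV

open Filter Topology Metric

noncomputable section

section

variable {l r s : ℂ} {U P : ℂ → ℂ}

lemma k1_nu (h : k1_Loc l r s U P) : 0 < 1 / ‖l‖ ∧ 1 / ‖l‖ ≤ 1 / 100000 ∧ ‖l‖ * (1 / ‖l‖) = 1 := by
  have hN := h.big
  have hN0 : 0 < ‖l‖ := by linarith
  refine ⟨by positivity, one_div_le_one_div_of_le (by norm_num) hN, ?_⟩
  field_simp

lemma k1_z2 (h : k1_Loc l r s U P) {z w : ℂ} (hz : ‖z‖ < 2) (hw : ‖w - r / 2‖ ≤ 1 / 4)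
    (hg : k1_g U P w = z) : ‖w - r / 2‖ ≤ 4 * (1 / ‖l‖) := by
  have hN := h.big
  have hN0 : 0 < ‖l‖ := by linarith
  have h1 := k1_lower h hw (w' := r / 2) (by rw [sub_self, norm_zero]; norm_num)
  have h2 := norm_sub_le (k1_g U P w) (k1_g U P (r / 2))
  rw [hg] at h1 h2
  have h3 := k1_g_half h
  have h4 : 9 / 10 * ‖l‖ * ‖w - r / 2‖ ≤ 31 / 10 := by linarith
  rw [mul_one_div, le_div_iff₀ hN0]
  nlinarith

lemma k1_delta (h : k1_Loc l r s U P) {w : ℂ} (hd : ‖w - r / 2‖ ≤ 4 * (1 / ‖l‖)) :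
    ‖l * (w - r / 2)‖ ≤ 4 := by
  obtain ⟨h1, h2, h3⟩ := k1_nu h
  rw [norm_mul]
  have := mul_le_mul_of_nonneg_left hd (norm_nonneg l)
  calc _ ≤ ‖l‖ * (4 * (1 / ‖l‖)) := this
    _ = 4 * (‖l‖ * (1 / ‖l‖)) := by ring
    _ = 4 := by rw [h3, mul_one]

lemma k1_w3 (h : k1_Loc l r s U P) {w : ℂ} (hd : ‖w - r / 2‖ ≤ 4 * (1 / ‖l‖)) :
    ‖w‖ ≤ 3 / 4 ∧ ‖4 * w ^ 2 - 1‖ ≤ 17 * (1 / ‖l‖) := by
  obtain ⟨h1, h2, h3⟩ := k1_nu h
  have h4 : ‖w‖ ≤ 3 / 4 := k1_norm_lt h (by linarith)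
  refine ⟨h4, ?_⟩
  have e : 4 * w ^ 2 - 1 = 4 * r * (w - r / 2) + 4 * ((w - r / 2) * (w - r / 2)) := by
    have := h.rr
    linear_combination this
  rw [e]
  have n4 : ‖(4 : ℂ)‖ ≤ 4 := by norm_num
  refine (norm_add_le_of_le (norm_mul_le_of_le (norm_mul_le_of_le n4 h.nr.le) hd)
    (norm_mul_le_of_le n4 (norm_mul_le_of_le hd hd))).trans ?_
  nlinarith

/-- first order expansion of the solution -/
lemma k1_A1 (h : k1_Loc l r s U P) {z w : ℂ} (hd : ‖w - r / 2‖ ≤ 4 * (1 / ‖l‖))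
    (hg : k1_g U P w = z) :
    ‖2 * r * s * (l * (w - r / 2)) - (z + r * U w)‖ ≤ 60 * (1 / ‖l‖) := by
  obtain ⟨h1, h2, h3⟩ := k1_nu h
  obtain ⟨hw, h4w⟩ := k1_w3 h hd
  have hδ := k1_delta h hd
  have hU := h.ub w (by linarith)
  have hR := k1_R_bound h (w := w) (by linarith)
  have e : 2 * r * s * (l * (w - r / 2)) - (z + r * U w) = 2 * ((w - r / 2) * U w) -
      2 * (s * (l * (w - r / 2)) * (w - r / 2)) - (4 * w ^ 2 - 1) * (w * U w + k1_R l s U P w) := by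
    have h5 := h.rr
    rw [← hg]
    unfold k1_g k1_R
    linear_combination (-(1 / 2) * s * l) * h5
  rw [e]
  have n2 : ‖(2 : ℂ)‖ ≤ 2 := by norm_num
  have hwU : ‖w * U w + k1_R l s U P w‖ ≤ 1 := by
    refine (norm_add_le_of_le (norm_mul_le_of_le hw hU) hR).trans ?_
    have : (12 : ℝ) / ‖l‖ = 12 * (1 / ‖l‖) := by ring
    rw [this]
    linarith
  refine (norm_sub_le_of_le (norm_sub_le_of_le (norm_mul_le_of_le n2 (norm_mul_le_of_le hd hU))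
    (norm_mul_le_of_le n2 (norm_mul_le_of_le (norm_mul_le_of_le h.ns.le hδ) hd)))
    (norm_mul_le_of_le h4w hwU)).trans ?_
  linarith

/-- the large trace of the child -/
lemma k1_A2 (h : k1_Loc l r s U P) {z w : ℂ} (hz : ‖z‖ < 2) (hd : ‖w - r / 2‖ ≤ 4 * (1 / ‖l‖))
    (hg : k1_g U P w = z) : ‖2 * w * P w - U w - r * s * l / 2‖ ≤ 3 := by
  obtain ⟨h1, h2, h3⟩ := k1_nu h
  obtain ⟨hw, h4w⟩ := k1_w3 h hd
  have hU := h.ub w (by linarith)
  have hR := k1_R_bound h (w := w) (by linarith)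
  have hA := k1_A1 h hd hg
  have e : 2 * w * P w - U w - r * s * l / 2 = (r * z) / 2 +
      r * (2 * r * s * (l * (w - r / 2)) - (z + r * U w)) / 2 + (4 * w ^ 2 - 1) / 2 * U w +
      2 * w * k1_R l s U P w := by
    have h5 := h.rr
    unfold k1_R
    linear_combination (1 / 2 * U w - s * l * (w - r / 2)) * h5
  rw [e]
  have n2 : ‖(2 : ℂ)‖ ≤ 2 := by norm_num
  have hR' : ‖k1_R l s U P w‖ ≤ 12 * (1 / ‖l‖) := by
    have : (12 : ℝ) / ‖l‖ = 12 * (1 / ‖l‖) := by ring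
    rw [← this]
    exact hR
  have t1 : ‖r * z / 2‖ ≤ 1 := by
    rw [norm_div, norm_mul, h.nr]
    have : ‖(2 : ℂ)‖ = 2 := by norm_num
    rw [this]
    linarith
  have t2 : ‖r * (2 * r * s * (l * (w - r / 2)) - (z + r * U w)) / 2‖ ≤ 30 * (1 / ‖l‖) := by
    rw [norm_div, norm_mul, h.nr]
    have : ‖(2 : ℂ)‖ = 2 := by norm_num
    rw [this]
    linarith
  have t3 : ‖(4 * w ^ 2 - 1) / 2 * U w‖ ≤ 17 * (1 / ‖l‖) / 2 * (11 / 10) := by
    refine norm_mul_le_of_le ?_ hU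
    rw [norm_div]
    have : ‖(2 : ℂ)‖ = 2 := by norm_num
    rw [this]
    linarith
  have t4 := norm_mul_le_of_le (norm_mul_le_of_le n2 hw) hR'
  refine (norm_add_le_of_le (norm_add_le_of_le (norm_add_le_of_le t1 t2) t3) t4).trans ?_
  linarith

/-- the derivative at the solution -/
lemma k1_A3 (h : k1_Loc l r s U P) {w : ℂ} (hd : ‖w - r / 2‖ ≤ 4 * (1 / ‖l‖)) :
    ‖k1_gp l s U P w - 4 * w * s * l‖ ≤ 210 * (1 / ‖l‖) := by
  obtain ⟨h1, h2, h3⟩ := k1_nu h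
  obtain ⟨hw, h4w⟩ := k1_w3 h hd
  have hU := h.ub w (by linarith)
  have hU' := k1_dU h (w := w) (by linarith)
  have hR := k1_R_bound h (w := w) (by linarith)
  have hR' := k1_dR h (w := w) (by linarith)
  have e : k1_gp l s U P w - 4 * w * s * l = 3 * (4 * w ^ 2 - 1) * U w +
      (4 * w ^ 3 - 3 * w) * deriv U w + 8 * w * k1_R l s U P w +
      (4 * w ^ 2 - 1) * deriv (k1_R l s U P) w := by
    unfold k1_gp
    ring
  have hw3 : ‖w ^ 3‖ ≤ (3 / 4) ^ 3 := by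
    rw [norm_pow]
    exact pow_le_pow_left₀ (norm_nonneg _) hw 3
  have n3 : ‖(3 : ℂ)‖ ≤ 3 := by norm_num
  have n4 : ‖(4 : ℂ)‖ ≤ 4 := by norm_num
  have n8 : ‖(8 : ℂ)‖ ≤ 8 := by norm_num
  rw [show (20 : ℝ) / ‖l‖ = 20 * (1 / ‖l‖) by ring] at hU'
  rw [show (12 : ℝ) / ‖l‖ = 12 * (1 / ‖l‖) by ring] at hR hR'
  rw [e]
  have t1 := norm_mul_le_of_le (norm_mul_le_of_le n3 h4w) hU
  have t2 := norm_mul_le_of_le (norm_sub_le_of_le (norm_mul_le_of_le n4 hw3)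
    (norm_mul_le_of_le n3 hw)) hU'
  have t3 := norm_mul_le_of_le (norm_mul_le_of_le n8 hw) hR
  have t4 := norm_mul_le_of_le h4w hR'
  refine (norm_add_le_of_le (norm_add_le_of_le (norm_add_le_of_le t1 t2) t3) t4).trans ?_
  nlinarith

lemma k1_four (h : k1_Loc l r s U P) {z w : ℂ} :
    4 * w * s * l = 2 * r * s * l + 2 * (r * z + U w) +
      2 * r * (2 * r * s * (l * (w - r / 2)) - (z + r * U w)) := by
  have h5 := h.rr
  linear_combination (-4 * s * l * (w - r / 2) + 2 * U w) * h5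

/-- the derivative at the solution for `z = 0` -/
lemma k1_G0 (h : k1_Loc l r s U P) {w : ℂ} (hd : ‖w - r / 2‖ ≤ 4 * (1 / ‖l‖))
    (hg : k1_g U P w = 0) :
    ‖k1_gp l s U P w - (2 * r * s * l + 2 * U 0)‖ ≤ 370 * (1 / ‖l‖) := by
  obtain ⟨h1, h2, h3⟩ := k1_nu h
  obtain ⟨hw, h4w⟩ := k1_w3 h hd
  have hA1 := k1_A1 h hd hg
  have hA3 := k1_A3 h hd
  have hdu := h.du w (by linarith)
  rw [show (20 : ℝ) / ‖l‖ = 20 * (1 / ‖l‖) by ring] at hdu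
  have e : k1_gp l s U P w - (2 * r * s * l + 2 * U 0) = (k1_gp l s U P w - 4 * w * s * l) +
      2 * (U w - U 0) + 2 * r * (2 * r * s * (l * (w - r / 2)) - (0 + r * U w)) := by
    have := k1_four h (z := 0) (w := w)
    linear_combination this
  have n2 : ‖(2 : ℂ)‖ ≤ 2 := by norm_num
  rw [e]
  refine (norm_add_le_of_le (norm_add_le_of_le hA3 (norm_mul_le_of_le n2 hdu))
    (norm_mul_le_of_le (norm_mul_le_of_le n2 h.nr.le) hA1)).trans ?_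
  linarith

/-- difference of the derivatives -/
lemma k1_G1 (h : k1_Loc l r s U P) {z w w0 : ℂ} (hd : ‖w - r / 2‖ ≤ 4 * (1 / ‖l‖))
    (hg : k1_g U P w = z) (hd0 : ‖w0 - r / 2‖ ≤ 4 * (1 / ‖l‖)) (hg0 : k1_g U P w0 = 0) :
    ‖k1_gp l s U P w - k1_gp l s U P w0 - 2 * r * z‖ ≤ 740 * (1 / ‖l‖) := by
  obtain ⟨h1, h2, h3⟩ := k1_nu h
  obtain ⟨hw, h4w⟩ := k1_w3 h hd
  obtain ⟨hw0, h4w0⟩ := k1_w3 h hd0
  have hA1 := k1_A1 h hd hg
  have hA3 := k1_A3 h hd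
  have hA10 := k1_A1 h hd0 hg0
  have hA30 := k1_A3 h hd0
  have hdu := h.du w (by linarith)
  have hdu0 := h.du w0 (by linarith)
  rw [show (20 : ℝ) / ‖l‖ = 20 * (1 / ‖l‖) by ring] at hdu hdu0
  have e : k1_gp l s U P w - k1_gp l s U P w0 - 2 * r * z = ((k1_gp l s U P w - 4 * w * s * l) -
      (k1_gp l s U P w0 - 4 * w0 * s * l)) + 2 * ((U w - U 0) - (U w0 - U 0)) +
      2 * r * ((2 * r * s * (l * (w - r / 2)) - (z + r * U w)) -
      (2 * r * s * (l * (w0 - r / 2)) - (0 + r * U w0))) := by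
    have e1 := k1_four h (z := z) (w := w)
    have e2 := k1_four h (z := 0) (w := w0)
    linear_combination e1 - e2
  have n2 : ‖(2 : ℂ)‖ ≤ 2 := by norm_num
  rw [e]
  refine (norm_add_le_of_le (norm_add_le_of_le (norm_sub_le_of_le hA3 hA30)
    (norm_mul_le_of_le n2 (norm_sub_le_of_le hdu hdu0)))
    (norm_mul_le_of_le (norm_mul_le_of_le n2 h.nr.le) (norm_sub_le_of_le hA1 hA10))).trans ?_
  linarith

lemma k1_gp_norm (h : k1_Loc l r s U P) {w : ℂ} (hw : ‖w - r / 2‖ ≤ 1 / 4) :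
    9 / 10 * ‖l‖ ≤ ‖k1_gp l s U P w‖ ∧ ‖k1_gp l s U P w‖ ≤ 31 / 10 * ‖l‖ := by
  have h1 := k1_gp_bound h hw
  have h2 : ‖2 * r * s * l‖ = 2 * ‖l‖ := by
    rw [norm_mul, norm_mul, norm_mul, h.ns, h.nr]
    have : ‖(2 : ℂ)‖ = 2 := by norm_num
    rw [this]
    ring
  constructor
  · have h3 : ‖2 * r * s * l‖ ≤ ‖k1_gp l s U P w‖ + ‖k1_gp l s U P w - 2 * r * s * l‖ := by
      have e : 2 * r * s * l = k1_gp l s U P w - (k1_gp l s U P w - 2 * r * s * l) := by ring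
      conv_lhs => rw [e]
      exact norm_sub_le _ _
    linarith
  · have h3 : ‖k1_gp l s U P w‖ ≤ ‖2 * r * s * l‖ + ‖k1_gp l s U P w - 2 * r * s * l‖ := by
      have e : k1_gp l s U P w = 2 * r * s * l + (k1_gp l s U P w - 2 * r * s * l) := by ring
      conv_lhs => rw [e]
      exact norm_add_le _ _
    linarith

/-- the expansion z1 -/
lemma k1_z1 (h : k1_Loc l r s U P) {z w : ℂ} (hd : ‖w - r / 2‖ ≤ 4 * (1 / ‖l‖))
    (hg : k1_g U P w = z) :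
    ‖w - (r / 2 + s * (r * z + U 0) / (2 * l))‖ ≤ 40 / ‖l‖ ^ 2 := by
  obtain ⟨h1, h2, h3⟩ := k1_nu h
  obtain ⟨hw, h4w⟩ := k1_w3 h hd
  have hN := h.big
  have hN0 : 0 < ‖l‖ := by linarith
  have hl0 : l ≠ 0 := norm_pos_iff.mp hN0
  have hA1 := k1_A1 h hd hg
  have hdu := h.du w (by linarith)
  rw [show (20 : ℝ) / ‖l‖ = 20 * (1 / ‖l‖) by ring] at hdu
  have e : w - (r / 2 + s * (r * z + U 0) / (2 * l)) = (s * ((U w - U 0) +
      r * (2 * r * s * (l * (w - r / 2)) - (z + r * U w))) / 2) / l := by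
    have h5 := h.rr
    have h6 := h.ss
    have h7 : w - (r / 2 + s * (r * z + U 0) / (2 * l)) =
        (l * (w - r / 2) - s * (r * z + U 0) / 2) / l := by
      field_simp
      ring
    rw [h7]
    congr 1
    linear_combination (-(s * s) * l * (w - r / 2) + s * U w / 2) * h5 + (-l * (w - r / 2)) * h6
  rw [e, norm_div, norm_div, norm_mul, h.ns, one_mul]
  have n2 : ‖(2 : ℂ)‖ = 2 := by norm_num
  rw [n2]
  have t := norm_add_le_of_le hdu (norm_mul_le_of_le h.nr.le hA1)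
  have : ‖(U w - U 0) + r * (2 * r * s * (l * (w - r / 2)) - (z + r * U w))‖ / 2 ≤
      40 * (1 / ‖l‖) := by linarith
  calc _ ≤ 40 * (1 / ‖l‖) / ‖l‖ := div_le_div_of_nonneg_right this hN0.le
    _ = 40 / ‖l‖ ^ 2 := by
      field_simp

end

end

end Pool.Agent.Helper36.CV
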