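import Pool.Agent.Helper35.CV.K1b

set_option autoImplicit false

namespace Pool.Agent.Helper36.CV

open Filter Topology Metric

noncomputable section

section

variable {l r s : ℂ} {U P D : ℂ → ℂ}

lemma k1_D_lip (_h : k1_Loc l r s U P) (hD : DifferentiableOn ℂ D (ball 0 2))
    (hD1 : ∀ w, ‖w‖ < 2 → ‖D w - 1‖ ≤ 10 / ‖l‖) {a b : ℂ} (ha : ‖a‖ < 1) (hb : ‖b‖ < 1) :
    ‖D a - D b‖ ≤ 10 * (1 / ‖l‖) * ‖a - b‖ := by
  have h1 : ∀ x ∈ ball (0 : ℂ) 1, DifferentiableAt ℂ D x := by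
    intro x hx
    rw [mem_ball_zero_iff] at hx
    exact hD.differentiableAt (isOpen_ball.mem_nhds (mem_ball_zero_iff.mpr (by linarith)))
  have h2 : ∀ x ∈ ball (0 : ℂ) 1, ‖deriv D x‖ ≤ 10 * (1 / ‖l‖) := by
    intro x hx
    rw [mem_ball_zero_iff] at hx
    have h3 := k1_cauchy (f := fun w => D w - 1) (hD.sub (differentiableOn_const _)) hD1 hx
    rw [deriv_sub_const] at h3
    rw [show (10 : ℝ) / ‖l‖ = 10 * (1 / ‖l‖) by ring] at h3
    exact h3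
  exact (convex_ball (0 : ℂ) 1).norm_image_sub_le_of_norm_deriv_le h1 h2
    (mem_ball_zero_iff.mpr hb) (mem_ball_zero_iff.mpr ha)

lemma k1_D_norm (h : k1_Loc l r s U P) (hD1 : ∀ w, ‖w‖ < 2 → ‖D w - 1‖ ≤ 10 / ‖l‖) {a : ℂ}
    (ha : ‖a‖ < 2) : 9 / 10 ≤ ‖D a‖ ∧ ‖D a‖ ≤ 11 / 10 := by
  obtain ⟨h1, h2, h3⟩ := k1_nu h
  have h4 := hD1 a ha
  rw [show (10 : ℝ) / ‖l‖ = 10 * (1 / ‖l‖) by ring] at h4
  constructor
  · have h5 : ‖(1 : ℂ)‖ ≤ ‖D a‖ + ‖D a - 1‖ := by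
      have e : (1 : ℂ) = D a - (D a - 1) := by ring
      conv_lhs => rw [e]
      exact norm_sub_le _ _
    rw [norm_one] at h5
    linarith
  · have h5 : ‖D a‖ ≤ ‖(1 : ℂ)‖ + ‖D a - 1‖ := by
      have e : D a = 1 + (D a - 1) := by ring
      conv_lhs => rw [e]
      exact norm_add_le _ _
    rw [norm_one] at h5
    linarith

lemma k1_half_lt (h : k1_Loc l r s U P) : ‖r / 2‖ = 1 / 2 := by
  rw [norm_div, h.nr]
  norm_num

lemma k1_E6 (h : k1_Loc l r s U P) (hD : DifferentiableOn ℂ D (ball 0 2))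
    (hD1 : ∀ w, ‖w‖ < 2 → ‖D w - 1‖ ≤ 10 / ‖l‖) {w : ℂ} (hd : ‖w - r / 2‖ ≤ 4 * (1 / ‖l‖))
    (hg : k1_g U P w = 0) :
    ‖D w / k1_gp l s U P w - D (r / 2) * (r * s / (2 * l)) * (1 - s * r * U 0 / l)‖ ≤
      2000 / ‖l‖ ^ 3 := by
  obtain ⟨h1, h2, h3⟩ := k1_nu h
  obtain ⟨hw, h4w⟩ := k1_w3 h hd
  have hN := h.big
  have hN0 : 0 < ‖l‖ := by linarith
  have hl0 : l ≠ 0 := norm_pos_iff.mp hN0
  have hG0 := k1_G0 h hd hg
  have hGn := k1_gp_norm h (w := w) (by linarith)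
  have hgne : k1_gp l s U P w ≠ 0 := by
    intro h0
    rw [h0, norm_zero] at hGn
    linarith [hGn.1]
  have hr2 := k1_half_lt h
  have hDl := k1_D_lip h hD hD1 (a := w) (b := r / 2) (by linarith) (by rw [hr2]; norm_num)
  have hDn := k1_D_norm h hD1 (a := r / 2) (by rw [hr2]; norm_num)
  have hU0 := h.ub 0 (by rw [norm_zero]; norm_num)
  set G := k1_gp l s U P w with hGdef
  set e1 := G - (2 * r * s * l + 2 * U 0) with he1
  have hli : ‖(1 : ℂ) / l‖ = 1 / ‖l‖ := by rw [norm_div, norm_one]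
  have e : D w / G - D (r / 2) * (r * s / (2 * l)) * (1 - s * r * U 0 / l) =
      ((D w - D (r / 2)) + D (r / 2) * ((U 0 * (1 / l)) * (U 0 * (1 / l)) -
        (1 - s * r * U 0 * (1 / l)) * (r * s * e1 * (1 / l) / 2))) / G := by
    rw [eq_div_iff hgne]
    have h5 := h.rr
    have h6 := h.ss
    have h7 : G = 2 * r * s * l + 2 * U 0 + e1 := by rw [he1]; ring
    have h8 : D w / G * G = D w := div_mul_cancel₀ _ hgne
    have h9 : (D w / G - D (r / 2) * (r * s / (2 * l)) * (1 - s * r * U 0 / l)) * G =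
        D w - D (r / 2) * ((r * s / (2 * l)) * (1 - s * r * U 0 / l) *
          (2 * r * s * l + 2 * U 0 + e1)) := by
      rw [sub_mul, h8, ← h7]
      ring
    have h10 : (r * s / (2 * l)) * (1 - s * r * U 0 / l) * (2 * r * s * l + 2 * U 0 + e1) =
        1 - (U 0 * (1 / l)) * (U 0 * (1 / l)) +
        (1 - s * r * U 0 * (1 / l)) * (r * s * e1 * (1 / l) / 2) := by
      have h11 : (r * s / (2 * l)) * (2 * r * s * l) = 1 := by
        field_simp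
        linear_combination (s * s) * h5 + h6
      have h12 : (r * s / (2 * l)) * (1 - s * r * U 0 / l) * (2 * r * s * l + 2 * U 0 + e1) =
          (1 - s * r * U 0 / l) * ((r * s / (2 * l)) * (2 * r * s * l)) +
          (1 - s * r * U 0 / l) * (r * s * U 0 / l) +
          (1 - s * r * U 0 * (1 / l)) * (r * s * e1 * (1 / l) / 2) := by
        field_simp
      rw [h12, h11]
      have h13 : (1 - s * r * U 0 / l) * (r * s * U 0 / l) = r * s * U 0 / l -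
          (r * r) * (s * s) * ((U 0 * (1 / l)) * (U 0 * (1 / l))) := by
        field_simp
      rw [h13, h5, h6]
      ring
    rw [h9, h10]
    ring
  rw [e, norm_div]
  have hA : ‖(D w - D (r / 2)) + D (r / 2) * ((U 0 * (1 / l)) * (U 0 * (1 / l)) -
        (1 - s * r * U 0 * (1 / l)) * (r * s * e1 * (1 / l) / 2))‖ ≤ 300 * (1 / ‖l‖) ^ 2 := by
    have n1 : ‖(1 : ℂ)‖ ≤ 1 := by norm_num
    have t1 : ‖D w - D (r / 2)‖ ≤ 10 * (1 / ‖l‖) * (4 * (1 / ‖l‖)) :=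
      hDl.trans (mul_le_mul_of_nonneg_left hd (by positivity))
    have t2 : ‖U 0 * (1 / l)‖ ≤ 11 / 10 * (1 / ‖l‖) := norm_mul_le_of_le hU0 hli.le
    have t3 : ‖1 - s * r * U 0 * (1 / l)‖ ≤ 1 + 1 * 1 * (11 / 10) * (1 / ‖l‖) :=
      norm_sub_le_of_le n1 (norm_mul_le_of_le (norm_mul_le_of_le (norm_mul_le_of_le h.ns.le h.nr.le)
        hU0) hli.le)
    have t4 : ‖r * s * e1 * (1 / l) / 2‖ ≤ 1 * 1 * (370 * (1 / ‖l‖)) * (1 / ‖l‖) / 2 := by
      rw [norm_div]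
      have : ‖(2 : ℂ)‖ = 2 := by norm_num
      rw [this]
      exact div_le_div_of_nonneg_right (norm_mul_le_of_le (norm_mul_le_of_le
        (norm_mul_le_of_le h.nr.le h.ns.le) hG0) hli.le) (by norm_num)
    refine (norm_add_le_of_le t1 (norm_mul_le_of_le hDn.2 (norm_sub_le_of_le
      (norm_mul_le_of_le t2 t2) (norm_mul_le_of_le t3 t4)))).trans ?_
    set ν := 1 / ‖l‖
    have h5 : ν ^ 3 ≤ ν ^ 2 * (1 / 100000) := by
      rw [pow_succ]
      exact mul_le_mul_of_nonneg_left h2 (by positivity)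
    nlinarith
  have hB : 9 / 10 * ‖l‖ ≤ ‖G‖ := hGn.1
  calc _ ≤ (300 * (1 / ‖l‖) ^ 2) / (9 / 10 * ‖l‖) :=
        div_le_div₀ (by positivity) hA (by positivity) hB
    _ ≤ 2000 / ‖l‖ ^ 3 := by
        rw [div_le_div_iff₀ (by positivity) (by positivity)]
        have : (1 / ‖l‖) ^ 2 * ‖l‖ ^ 3 = ‖l‖ := by
          field_simp
        calc 300 * (1 / ‖l‖) ^ 2 * ‖l‖ ^ 3 = 300 * ((1 / ‖l‖) ^ 2 * ‖l‖ ^ 3) := by ring
          _ = 300 * ‖l‖ := by rw [this]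
          _ ≤ 2000 * (9 / 10 * ‖l‖) := by linarith

lemma k1_E5 (h : k1_Loc l r s U P) (hD : DifferentiableOn ℂ D (ball 0 2))
    (hD1 : ∀ w, ‖w‖ < 2 → ‖D w - 1‖ ≤ 10 / ‖l‖) {z w w0 : ℂ} (hz : ‖z‖ < 2)
    (hd : ‖w - r / 2‖ ≤ 4 * (1 / ‖l‖))
    (hg : k1_g U P w = z) (hd0 : ‖w0 - r / 2‖ ≤ 4 * (1 / ‖l‖)) (hg0 : k1_g U P w0 = 0) :
    ‖D w * k1_gp l s U P w0 / (D w0 * k1_gp l s U P w) - (1 - s * z / l)‖ ≤ 2000 / ‖l‖ ^ 2 := by
  obtain ⟨h1, h2, h3⟩ := k1_nu h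
  obtain ⟨hw, h4w⟩ := k1_w3 h hd
  obtain ⟨hw0, h4w0⟩ := k1_w3 h hd0
  have hN := h.big
  have hN0 : 0 < ‖l‖ := by linarith
  have hl0 : l ≠ 0 := norm_pos_iff.mp hN0
  have hG0 := k1_G0 h hd0 hg0
  have hG1 := k1_G1 h hd hg hd0 hg0
  have hGn0 := k1_gp_norm h (w := w0) (by linarith)
  have hGn := k1_gp_norm h (w := w) (by linarith)
  have hgne : k1_gp l s U P w ≠ 0 := by
    intro h0
    rw [h0, norm_zero] at hGn
    linarith [hGn.1]
  have hDl := k1_D_lip h hD hD1 (a := w) (b := w0) (by linarith) (by linarith)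
  have hDn0 := k1_D_norm h hD1 (a := w0) (by linarith)
  have hDne : D w0 ≠ 0 := by
    intro h0
    rw [h0, norm_zero] at hDn0
    linarith [hDn0.1]
  have hU0 := h.ub 0 (by rw [norm_zero]; norm_num)
  set G := k1_gp l s U P w with hGdef
  set G0 := k1_gp l s U P w0 with hG0def
  set e4 := G - G0 - 2 * r * z with he4
  set e1 := G0 - (2 * r * s * l + 2 * U 0) with he1
  have hli : ‖(1 : ℂ) / l‖ = 1 / ‖l‖ := by rw [norm_div, norm_one]
  have e : D w * G0 / (D w0 * G) - (1 - s * z / l) =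
      (D w0 * (s * z * (1 / l) * (2 * U 0 + e1) + s * z * (1 / l) * (2 * r * z) -
        (1 - s * z * (1 / l)) * e4) + (D w - D w0) * G0) / (D w0 * G) := by
    rw [eq_div_iff (mul_ne_zero hDne hgne), sub_mul, div_mul_cancel₀ _ (mul_ne_zero hDne hgne)]
    have h5 : G = G0 + 2 * r * z + e4 := by rw [he4]; ring
    have h6 : 2 * U 0 + e1 = G0 - 2 * r * s * l := by rw [he1]; ring
    have h7 : s * z * (1 / l) * (2 * r * s * l) = 2 * r * z := by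
      have := h.ss
      field_simp
      linear_combination (z * r) * this
    rw [h6, h5]
    have h8 : s * z / l = s * z * (1 / l) := by ring
    rw [h8]
    linear_combination (D w0) * h7
  rw [e, norm_div]
  have hdist : ‖w - w0‖ ≤ 8 * (1 / ‖l‖) := by
    have e : w - w0 = (w - r / 2) - (w0 - r / 2) := by ring
    rw [e]
    refine (norm_sub_le_of_le hd hd0).trans ?_
    linarith
  have hA : ‖D w0 * (s * z * (1 / l) * (2 * U 0 + e1) + s * z * (1 / l) * (2 * r * z) -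
        (1 - s * z * (1 / l)) * e4) + (D w - D w0) * G0‖ ≤ 1200 * (1 / ‖l‖) := by
    have n1 : ‖(1 : ℂ)‖ ≤ 1 := by norm_num
    have n2 : ‖(2 : ℂ)‖ ≤ 2 := by norm_num
    have t1 : ‖D w - D w0‖ ≤ 10 * (1 / ‖l‖) * (8 * (1 / ‖l‖)) :=
      hDl.trans (mul_le_mul_of_nonneg_left hdist (by positivity))
    have t2 : ‖s * z * (1 / l)‖ ≤ 1 * 2 * (1 / ‖l‖) :=
      norm_mul_le_of_le (norm_mul_le_of_le h.ns.le hz.le) hli.le
    have t3 : ‖2 * U 0 + e1‖ ≤ 2 * (11 / 10) + 370 * (1 / ‖l‖) :=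
      norm_add_le_of_le (norm_mul_le_of_le n2 hU0) hG0
    have t4 : ‖2 * r * z‖ ≤ 2 * 1 * 2 := norm_mul_le_of_le (norm_mul_le_of_le n2 h.nr.le) hz.le
    have t5 : ‖1 - s * z * (1 / l)‖ ≤ 1 + 1 * 2 * (1 / ‖l‖) := norm_sub_le_of_le n1 t2
    refine (norm_add_le_of_le (norm_mul_le_of_le hDn0.2 (norm_sub_le_of_le (norm_add_le_of_le
      (norm_mul_le_of_le t2 t3) (norm_mul_le_of_le t2 t4)) (norm_mul_le_of_le t5 hG1)))
      (norm_mul_le_of_le t1 hGn0.2)).trans ?_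
    have h5 : 10 * (1 / ‖l‖) * (8 * (1 / ‖l‖)) * (31 / 10 * ‖l‖) =
        248 * (1 / ‖l‖) * (‖l‖ * (1 / ‖l‖)) := by ring
    rw [h5, h3]
    set ν := 1 / ‖l‖
    nlinarith
  have hB : 9 / 10 * (9 / 10 * ‖l‖) ≤ ‖D w0 * G‖ := by
    rw [norm_mul]
    exact mul_le_mul hDn0.1 hGn.1 (by positivity) (norm_nonneg _)
  calc _ ≤ (1200 * (1 / ‖l‖)) / (9 / 10 * (9 / 10 * ‖l‖)) :=
        div_le_div₀ (by positivity) hA (by positivity) hB
    _ ≤ 2000 / ‖l‖ ^ 2 := by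
        rw [div_le_div_iff₀ (by positivity) (by positivity)]
        have : (1 / ‖l‖) * ‖l‖ ^ 2 = ‖l‖ := by
          field_simp
        calc 1200 * (1 / ‖l‖) * ‖l‖ ^ 2 = 1200 * ((1 / ‖l‖) * ‖l‖ ^ 2) := by ring
          _ = 1200 * ‖l‖ := by rw [this]
          _ ≤ 2000 * (9 / 10 * (9 / 10 * ‖l‖)) := by linarith

end

end

end Pool.Agent.Helper36.CV
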